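import Pool.Agent.Helper36.CV.StmtsG

set_option autoImplicit false

namespace Pool.Agent.Helper36.CV

open Complex Filter Topology MeasureTheory Set

noncomputable section

/-! Block P: potential theory of a comb function. Part A: representation formulas in the upper half plane. -/

/-- closed and open upper half plane -/
def Uc : Set ℂ := {z | 0 ≤ z.im}
def Uo : Set ℂ := {z | 0 < z.im}

/-- the upper half plane without finitely many real points -/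
def Ucm (S : Finset ℝ) : Set ℂ := {z | 0 ≤ z.im ∧ ∀ s ∈ S, z ≠ ((s : ℝ) : ℂ)}

/-- A1: continuous up to the boundary, logarithmic growth -/
def ST_A1 : Prop := ∀ (G : ℂ → ℂ) (A : ℝ), ContinuousOn G Uc → DifferentiableOn ℂ G Uo →
  (∀ z ∈ Uc, ‖G z‖ ≤ A * (1 + Real.log (1 + ‖z‖))) →
  (∀ z ∈ Uo, Integrable (fun t : ℝ => ((z.im / ((t - z.re) ^ 2 + z.im ^ 2) : ℝ) : ℂ) * G t) ∧
    G z = (1 / Real.pi : ℝ) * ∫ t : ℝ, ((z.im / ((t - z.re) ^ 2 + z.im ^ 2) : ℝ) : ℂ) * G t) ∧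
  (∀ z₁ ∈ Uo, ∀ z₂ ∈ Uo,
    Integrable (fun t : ℝ => (((G t).im : ℝ) : ℂ) * (1 / ((t : ℂ) - z₁) - 1 / ((t : ℂ) - z₂))) ∧
    G z₁ - G z₂ = (1 / Real.pi : ℝ) * ∫ t : ℝ, (((G t).im : ℝ) : ℂ) * (1 / ((t : ℂ) - z₁) - 1 / ((t : ℂ) - z₂)))

/-- A2: logarithmic singularities at finitely many real points -/
def ST_A2 : Prop := ∀ (G : ℂ → ℂ) (S : Finset ℝ) (A : ℝ), ContinuousOn G (Ucm S) → DifferentiableOn ℂ G Uo →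
  (∀ z ∈ Uo, ‖G z‖ ≤ A * (1 + |Real.log z.im| + Real.log (1 + ‖z‖))) →
  (∀ z ∈ Uo, |(G z).im| ≤ A * (1 + Real.log (1 + ‖z‖))) →
  (∀ z ∈ Uo, Integrable (fun t : ℝ => (G t).im * (z.im / ((t - z.re) ^ 2 + z.im ^ 2))) ∧
    (G z).im = (1 / Real.pi) * ∫ t : ℝ, (G t).im * (z.im / ((t - z.re) ^ 2 + z.im ^ 2))) ∧
  (∀ z₁ ∈ Uo, ∀ z₂ ∈ Uo,
    Integrable (fun t : ℝ => (((G t).im : ℝ) : ℂ) * (1 / ((t : ℂ) - z₁) - 1 / ((t : ℂ) - z₂))) ∧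
    G z₁ - G z₂ = (1 / Real.pi : ℝ) * ∫ t : ℝ, (((G t).im : ℝ) : ℂ) * (1 / ((t : ℂ) - z₁) - 1 / ((t : ℂ) - z₂)))

/-- weight with square root singularities at the points of S -/
def wS (S : Finset ℝ) (z : ℂ) : ℝ := 1 + ∑ s ∈ S, ‖z - ((s : ℝ) : ℂ)‖ ^ (-(1 / 2) : ℝ)

/-- A3: square root singularities, decay 1/sqrt: formula with the imaginary part -/
def ST_A3 : Prop := ∀ (G : ℂ → ℂ) (S : Finset ℝ) (A : ℝ), ContinuousOn G (Ucm S) → DifferentiableOn ℂ G Uo →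
  (∀ z ∈ Ucm S, ‖G z‖ ≤ A * (1 + Real.log (1 + ‖z‖)) * (1 + ‖z‖) ^ (-(1 / 2) : ℝ) * wS S z) →
  ∀ z ∈ Uo, Integrable (fun t : ℝ => (((G t).im : ℝ) : ℂ) / ((t : ℂ) - z)) ∧
    G z = (1 / Real.pi : ℝ) * ∫ t : ℝ, (((G t).im : ℝ) : ℂ) / ((t : ℂ) - z)

/-- A4: square root singularities, integrable decay: the integral vanishes -/
def ST_A4 : Prop := ∀ (G : ℂ → ℂ) (S : Finset ℝ) (A : ℝ), ContinuousOn G (Ucm S) → DifferentiableOn ℂ G Uo →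
  (∀ z ∈ Ucm S, ‖G z‖ ≤ A * (1 + Real.log (1 + ‖z‖)) * (1 + ‖z‖) ^ (-(3 / 2) : ℝ) * wS S z) →
  Integrable (fun t : ℝ => G t) ∧ ∫ t : ℝ, G t = 0

/-! Part B: the comb function. -/

def vf {Hm Hp : ℝ} {C : Set ℝ} (cd : CD Hm Hp C) (t : ℝ) : ℝ := (cd.f t).im
def Nf {Hm Hp : ℝ} {C : Set ℝ} (cd : CD Hm Hp C) (t : ℝ) : ℝ := (cd.f t).re
/-- imaginary part of f at x + i r -/
def Yf {Hm Hp : ℝ} {C : Set ℝ} (cd : CD Hm Hp C) (x r : ℝ) : ℝ := (cd.f ((x : ℂ) + (r : ℂ) * I)).im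

def ST_P1 : Prop := ∀ (Hm Hp : ℝ) (C : Set ℝ) (cd : CD Hm Hp C),
  (∀ x r : ℝ, 0 < r → Integrable (fun t => vf cd t * (r / ((t - x) ^ 2 + r ^ 2))) ∧
    Yf cd x r = (1 / Real.pi) * ∫ t : ℝ, vf cd t * (r / ((t - x) ^ 2 + r ^ 2))) ∧
  (∀ x r : ℝ, 0 < r → (cd.f ((x : ℂ) + (r : ℂ) * I)).re = (1 / Real.pi) * ∫ t : ℝ, Nf cd t * (r / ((t - x) ^ 2 + r ^ 2))) ∧
  (∀ x r r' : ℝ, 0 < r → r ≤ r' → 0 < Yf cd x r ∧ Yf cd x r ≤ Yf cd x r' ∧ Yf cd x r' / r' ≤ Yf cd x r / r) ∧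
  (∀ x x' r : ℝ, 0 < r → |x - x'| ≤ 4 * r →
    Yf cd x' r ≤ (1 + |x - x'| / r + (|x - x'| / r) ^ 2) * Yf cd x r) ∧
  (∀ x r : ℝ, 0 < r → |(cd.f ((x : ℂ) + (r : ℂ) * I)).re - Nf cd x| ≤ Yf cd x r) ∧
  (∀ x r x₁ x₂ : ℝ, 0 < r → |x₁ - x| ≤ r → |x₂ - x| ≤ r → |Nf cd x₁ - Nf cd x₂| ≤ 12 * Yf cd x r)

/-- signed square root of (t-a)(t-b), zero on [a,b] -/
def qr (a b t : ℝ) : ℝ := if b ≤ t then Real.sqrt ((t - a) * (t - b)) else -Real.sqrt ((t - a) * (t - b))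

/-- its extension to the upper half plane -/
def qc (a b : ℝ) (z : ℂ) : ℂ := (z - a) ^ (1 / 2 : ℂ) * (z - b) ^ (1 / 2 : ℂ)

/-- kernel integral: v(x) = sqrt((x-a)(b-x)) * KI -/
def KI {Hm Hp : ℝ} {C : Set ℝ} (cd : CD Hm Hp C) (a b x : ℝ) : ℝ :=
  (1 / Real.pi) * ∫ t : ℝ, vf cd t / (|qr a b t| * |t - x|)

/-- P3: representation relative to an interval of constancy of Re f -/
def ST_P3 : Prop := ∀ (Hm Hp : ℝ) (C : Set ℝ) (cd : CD Hm Hp C) (a b N : ℝ), a < b →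
  (∀ t ∈ Icc a b, Nf cd t = N) →
  (∀ x ∈ Ioo a b, Integrable (fun t => vf cd t / (|qr a b t| * |t - x|)) ∧ 0 < KI cd a b x ∧
    vf cd x = Real.sqrt ((x - a) * (b - x)) * KI cd a b x) ∧
  (∀ z ∈ Uo, Integrable (fun t : ℝ => ((vf cd t / qr a b t : ℝ) : ℂ) / ((t : ℂ) - z)) ∧
    cd.f z - N = qc a b z * ((1 / Real.pi : ℝ) * ∫ t : ℝ, ((vf cd t / qr a b t : ℝ) : ℂ) / ((t : ℂ) - z))) ∧
  (∀ r : ℝ, 0 < r → ‖cd.f (((a + b) / 2 : ℝ) + (r : ℂ) * I) - N‖ ≤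
    Real.sqrt (r ^ 2 + (b - a) ^ 2 / 4) * KI cd a b ((a + b) / 2))

/-- a (bounded) gap with its label -/
structure Gap {Hm Hp : ℝ} {C : Set ℝ} (cd : CD Hm Hp C) where
  a : ℝ
  b : ℝ
  n : ℤ
  m : ℤ
  lt : a < b
  ha : a ∈ C
  hb : b ∈ C
  out : ∀ t ∈ Ioo a b, t ∉ C
  lab : ∀ t ∈ Icc a b, Nf cd t = n + m * gam

namespace Gap
variable {Hm Hp : ℝ} {C : Set ℝ} {cd : CD Hm Hp C}
def c (V : Gap cd) : ℝ := (V.a + V.b) / 2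
def s (V : Gap cd) : ℝ := V.b - V.a
def N (V : Gap cd) : ℝ := V.n + V.m * gam
/-- label minus conjugate label -/
def mu (V : Gap cd) : ℝ := Real.sqrt 5 * V.m
def q (V : Gap cd) (t : ℝ) : ℝ := qr V.a V.b t
def kk (V : Gap cd) : ℝ := KI cd V.a V.b V.c
/-- the amplitude function g = (f - N)/q -/
def g (V : Gap cd) (z : ℂ) : ℂ := (cd.f z - V.N) / qc V.a V.b z
/-- arcsine average over the gap -/
def av (V : Gap cd) (φ : ℝ → ℝ) : ℝ :=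
  (1 / Real.pi) * ∫ t in V.a..V.b, φ t / Real.sqrt ((t - V.a) * (V.b - t))
/-- the gap meets the interval [x-d,x+d] -/
def Meets (V : Gap cd) (x d : ℝ) : Prop := V.a ≤ x + d ∧ x - d ≤ V.b
/-- label window -/
def LW (V : Gap cd) (R : ℝ) : Prop := ∀ t : ℝ, |t - V.c| ≤ R → |Nf cd t - V.N| * (|V.mu| + 1) ≤ 9 / 10
end Gap

/-- gap of a set -/
def IsG (C : Set ℝ) (a b : ℝ) : Prop := a < b ∧ a ∈ C ∧ b ∈ C ∧ ∀ t ∈ Ioo a b, t ∉ C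

def ST_P2 : Prop := ∀ (Hm Hp : ℝ) (C : Set ℝ) (cd : CD Hm Hp C), 0 < Hm →
  (∀ x : ℝ, 0 ≤ vf cd x ∧ 0 ≤ Nf cd x ∧ Nf cd x ≤ 1 ∧ (x ∈ C ↔ vf cd x = 0)) ∧
  (∀ x : ℝ, x ∉ C → 0 < Nf cd x → Nf cd x < 1 → ∃ V : Gap cd, V.a < x ∧ x < V.b) ∧
  (∀ a b : ℝ, IsG C a b → ∃ V : Gap cd, V.a = a ∧ V.b = b) ∧
  (∀ V : Gap cd, V.m ≠ 0 ∧ 0 < V.N ∧ V.N < 1 ∧ (∀ t ∈ Icc V.a V.b, |(V.m : ℝ)| * vf cd t ≤ Hp) ∧
    V.kk = 2 * vf cd V.c / V.s ∧ 0 < V.kk ∧ 0 < vf cd V.c) ∧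
  (∀ V W : Gap cd, V.a < W.a → V.b < W.a ∧ V.N < W.N) ∧
  (∀ V W : Gap cd, V.a = W.a → V = W) ∧
  (∀ V : Gap cd, ∀ t : ℝ, Nf cd t = V.N → t ∈ Icc V.a V.b) ∧
  (∀ V W : Gap cd, V ≠ W → 1 ≤ |V.N - W.N| * (|V.N - W.N| + |V.mu - W.mu|)) ∧
  (∀ V : Gap cd, 1 ≤ V.N * (V.N + |V.mu|) ∧ 1 ≤ (1 - V.N) * (1 - V.N + |V.mu|)) ∧
  (∀ n m : ℤ, m ≠ 0 → 0 < (n : ℝ) + m * gam → (n : ℝ) + m * gam < 1 →
    ∃ V : Gap cd, V.n = n ∧ V.m = m ∧ ∃ t ∈ Ioo V.a V.b, Hm ≤ |(m : ℝ)| * vf cd t) ∧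
  (∀ M : ℝ, {V : Gap cd | |V.mu| ≤ M}.Finite) ∧
  (∀ a b : ℝ, a < b → (∀ t ∈ Icc a b, Nf cd t = Nf cd a) → ∀ x ∈ Ioo a b, 0 < vf cd x)

/-- P4: first identity for two gaps -/
def ST_P4 : Prop := ∀ (Hm Hp : ℝ) (C : Set ℝ) (cd : CD Hm Hp C) (V W : Gap cd), V ≠ W →
  (V.b < W.a ∨ W.b < V.a) →
  Integrable (fun t => vf cd t / (V.q t * W.q t)) ∧
  (W.N - V.N) * W.av (fun t => 1 / V.q t) = (1 / Real.pi) * ∫ t : ℝ, vf cd t / (V.q t * W.q t)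

/-- P5: second identity for two gaps -/
def ST_P5 : Prop := ∀ (Hm Hp : ℝ) (C : Set ℝ) (cd : CD Hm Hp C) (V W : Gap cd), V ≠ W →
  (V.b < W.a ∨ W.b < V.a) →
  Integrable (fun t => vf cd t / (V.q t * W.q t * (t - W.c))) ∧
  W.kk = V.q W.c * ((W.N - V.N) * V.av (fun t => 1 / ((t - W.c) * W.q t)) +
    (1 / Real.pi) * ∫ t : ℝ, vf cd t / (V.q t * W.q t * (t - W.c)))

/-- the standing assumption on the heights -/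
def Par (ε Hm Hp : ℝ) : Prop := 0 < ε ∧ 0 < Hm ∧ 4 * Real.sqrt 5 * Hp ≤ ε * (1 + 98 * ε)

/-- MR: reflection -/
def ST_MR : Prop := ∀ (Hm Hp : ℝ) (C : Set ℝ) (cd : CD Hm Hp C), 0 < Hm → ∃ cd' : CD Hm Hp (-C),
  (∀ x, vf cd' x = vf cd (-x)) ∧ (∀ x, Nf cd' x = 1 - Nf cd (-x)) ∧
  (∀ x r, 0 < r → Yf cd' x r = Yf cd (-x) r) ∧
  ∃ e : Gap cd ≃ Gap cd', ∀ V : Gap cd, (e V).a = -V.b ∧ (e V).b = -V.a ∧ (e V).m = -V.m ∧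
    (e V).N = 1 - V.N ∧ (e V).kk = V.kk ∧ (∀ t, |(e V).q t| = |V.q (-t)|)

end

end Pool.Agent.Helper36.CV
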