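import Pool.Agent.Helper36.CV.StmtsP

set_option autoImplicit false

namespace Pool.Agent.Helper36.CV

open Complex Filter Topology MeasureTheory Set

noncomputable section

/-! Block P, part C: estimates for gaps. All gaps are gaps of a comb function cd with Par ε Hm Hp. -/

/-- Q1: size of a low gap -/
def ST_Q1 : Prop := ∀ (Hm Hp : ℝ) (C : Set ℝ) (cd : CD Hm Hp C), 0 < Hm → ∀ (W : Gap cd) (x d H : ℝ), 0 < d →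
  W.Meets x d → (∀ t ∈ Icc W.a W.b, vf cd t ≤ H) → 12 * H ≤ Yf cd x d →
  W.s * Yf cd x d ≤ 21 / 2 * d * H ∧ W.s ≤ d

/-- Q2: mass lemma -/
def ST_Q2 : Prop := ∀ (ε Hm Hp : ℝ) (C : Set ℝ) (cd : CD Hm Hp C), Par ε Hm Hp → ε ≤ 1 / 10 ^ 4 →
  ∀ (x d M : ℝ) (E0 : Set ℝ), 0 < d → 1 ≤ M → MeasurableSet E0 →
  (∀ t ∈ Icc (x - d) (x + d), 0 < Nf cd t ∧ Nf cd t < 1) →
  (∀ W : Gap cd, W.Meets x d → Icc W.a W.b ⊆ E0 ∨ M ≤ |W.mu|) →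
  31 / 10 * ε ≤ M * Yf cd x d →
  IntegrableOn (vf cd) (Icc (x - d) (x + d)) ∧
  ∫ t in Icc (x - d) (x + d) \ E0, vf cd t ≤ ε ^ 2 * (d / (Yf cd x d * M ^ 2) + 81 * d / M)

/-- Q3: the argument and modulus of the amplitude function relative to [a,b] (a = b allowed) -/
def ST_Q3 : Prop := ∃ K : ℝ, 1 ≤ K ∧ ∀ (ε Hm Hp : ℝ) (C : Set ℝ) (cd : CD Hm Hp C), 0 < Hm → 0 < ε → ε ≤ 1 / 100 →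
  ∀ (a b N R : ℝ), a ≤ b → b - a ≤ R → 0 < R → (∀ t ∈ Icc a b, Nf cd t = N) → (∀ t : ℝ, Nf cd t = N → t ∈ Icc a b) →
  (∀ t : ℝ, |t - (a + b) / 2| ≤ R → t ∉ Icc a b → vf cd t ≤ 3 * ε * |Nf cd t - N|) →
  (∀ z ∈ Uo, ‖z - ((a + b) / 2 : ℝ)‖ ≤ R / 4 →
    |((cd.f z - N) / qc a b z).arg| ≤ 3 * ε + ‖z - ((a + b) / 2 : ℝ)‖ / R) ∧
  (∀ z₁ ∈ Uo, ∀ z₂ ∈ Uo, ‖z₁ - ((a + b) / 2 : ℝ)‖ ≤ R / 4 → ‖z₂ - ((a + b) / 2 : ℝ)‖ ≤ R / 4 →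
    |Real.log ‖(cd.f z₁ - N) / qc a b z₁‖ - Real.log ‖(cd.f z₂ - N) / qc a b z₂‖| ≤
      K * (ε * (1 + Real.log (1 + ‖z₁ - z₂‖ / z₁.im) + Real.log (1 + ‖z₁ - z₂‖ / z₂.im)) + ‖z₁ - z₂‖ / R)) ∧
  (a < b → ∀ z ∈ Uo, ‖z - ((a + b) / 2 : ℝ)‖ ≤ R / 4 →
    |Real.log ‖(cd.f z - N) / qc a b z‖ - Real.log (KI cd a b ((a + b) / 2))| ≤
      K * (ε * (1 + Real.log (1 + ‖z - ((a + b) / 2 : ℝ)‖ / z.im) + Real.log (1 + ‖z - ((a + b) / 2 : ℝ)‖ / (b - a)))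
        + ‖z - ((a + b) / 2 : ℝ)‖ / R))

/-- Q4: windows -/
def ST_Q4 : Prop := ∀ (ε Hm Hp : ℝ) (C : Set ℝ) (cd : CD Hm Hp C), Par ε Hm Hp → ε ≤ 1 / 10 ^ 5 →
  (∀ (V : Gap cd) (r t : ℝ), 0 ≤ r → |t - V.c| ≤ r → |Nf cd t - V.N| ≤ 7 * Real.sqrt (r ^ 2 + V.s ^ 2 / 4) * V.kk) ∧
  (∀ V : Gap cd, |V.mu| * V.kk * V.s ≤ ε / 2 * (1 + 98 * ε)) ∧
  (∀ V : Gap cd, 1000 ≤ |V.mu| → V.LW (V.s / (4 * ε))) ∧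
  (∀ V : Gap cd, ∀ t : ℝ, |Nf cd t - V.N| * (|V.mu| + 1) ≤ 9 / 10 →
    0 < Nf cd t ∧ Nf cd t < 1 ∧
    (t ∉ Icc V.a V.b → vf cd t ≤ 3 * ε * |Nf cd t - V.N|) ∧
    (∀ W : Gap cd, W ≠ V → t ∈ Icc W.a W.b → 1 / 10 ≤ |W.mu| * |W.N - V.N|))

/-- Q5: mass in a shell next to an edge -/
def ST_Q5 : Prop := ∃ K ε0 : ℝ, 1 ≤ K ∧ 0 < ε0 ∧ ∀ (ε Hm Hp : ℝ) (C : Set ℝ) (cd : CD Hm Hp C), Par ε Hm Hp → ε ≤ ε0 →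
  ∀ (V : Gap cd) (R δ : ℝ), 1000 ≤ |V.mu| → V.LW R → 0 < δ → V.s / 2 + 2 * δ ≤ R / 100 →
  ∫ t in Icc (V.b + δ / 2) (V.b + 3 * δ / 2), vf cd t / |V.q t| ≤
    K * ε ^ 2 * δ * ‖V.g ((V.b + δ : ℝ) + (δ : ℂ) * I)‖ ∧
  ∫ t in Icc (V.a - 3 * δ / 2) (V.a - δ / 2), vf cd t / |V.q t| ≤
    K * ε ^ 2 * δ * ‖V.g ((V.a - δ : ℝ) + (δ : ℂ) * I)‖

/-- Q6: mass near a gap, in its own window; two-sided control of Y -/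
def ST_Q6 : Prop := ∃ K ε0 : ℝ, 1 ≤ K ∧ 0 < ε0 ∧ ∀ (ε Hm Hp : ℝ) (C : Set ℝ) (cd : CD Hm Hp C), Par ε Hm Hp → ε ≤ ε0 →
  ∀ (V : Gap cd), 1000 ≤ |V.mu| →
  ∫ t in Icc (V.c - V.s / (4 * ε)) (V.c + V.s / (4 * ε)), vf cd t / |V.q t| ≤ K * ε * V.s * V.kk ∧
  (∀ r : ℝ, 0 < r → r ≤ V.s / (4 * ε) → V.kk * r ≤ K * Yf cd V.c r)

/-- Q7: comparison of a gap V with a reference gap V0 (label window R) -/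
def ST_Q7 : Prop := ∃ K ε0 : ℝ, 1 ≤ K ∧ 0 < ε0 ∧ ∀ (ε Hm Hp : ℝ) (C : Set ℝ) (cd : CD Hm Hp C), Par ε Hm Hp → ε ≤ ε0 →
  ∀ (V0 V : Gap cd) (R x y : ℝ), 1000 ≤ |V0.mu| → V0.LW R → V0.s ≤ R → V ≠ V0 → x = |V.c - V0.c| → K * x ≤ R →
  y = x - V0.s / 2 →
  0 < y ∧ V.s ≤ K * ε * y ∧
  (1 - K * (ε + (x / R) ^ (9 / 10 : ℝ))) * |V.N - V0.N| * x ≤ V.kk * (x ^ 2 - (V0.s / 2) ^ 2) ∧
  V.s * (1 - |V.N - V0.N| * (|V0.mu| + |V.N - V0.N|)) * x ≤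
    ε / 2 * (1 + 98 * ε) * (1 + K * (ε + (x / R) ^ (9 / 10 : ℝ))) * (x ^ 2 - (V0.s / 2) ^ 2)

/-- distance of a point to a gap -/
def Gap.dist {Hm Hp : ℝ} {C : Set ℝ} {cd : CD Hm Hp C} (V : Gap cd) (x : ℝ) : ℝ := max 0 (max (V.a - x) (x - V.b))

/-- non-violator relative to the centre x and the scale ρ -/
def NV {Hm Hp : ℝ} {C : Set ℝ} {cd : CD Hm Hp C} (ε x ρ : ℝ) (W : Gap cd) : Prop :=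
  ε ^ (2 / 5 : ℝ) ≤ |W.mu| * Real.sqrt (max ρ (W.dist x) / ρ) * Yf cd x (max ρ (W.dist x))

/-- all gaps meeting [x-d,x+d] are bounded, have large labels, and (except possibly V0) are non-violators -/
structure Reg {Hm Hp : ℝ} {C : Set ℝ} (cd : CD Hm Hp C) (ε x ρ d : ℝ) (ex : Gap cd → Prop) : Prop where
  inn : ∀ t ∈ Icc (x - d) (x + d), 0 < Nf cd t ∧ Nf cd t < 1
  big : ∀ W : Gap cd, W.Meets x d → 1000 ≤ |W.mu|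
  nv : ∀ W : Gap cd, W.Meets x d → ¬ ex W → NV ε x ρ W

/-- Q8: mass of non-violators in balls -/
def ST_Q8 : Prop := ∃ ε0 : ℝ, 0 < ε0 ∧ ∀ (ε Hm Hp : ℝ) (C : Set ℝ) (cd : CD Hm Hp C), Par ε Hm Hp → ε ≤ ε0 →
  ∀ x ρ d D : ℝ, 0 < ρ → ρ ≤ d → d ≤ D → D ≤ ε ^ (-(21 / 20) : ℝ) * ρ → Reg cd ε x ρ D (fun _ => False) →
  ∫ t in Icc (x - d) (x + d), vf cd t ≤ 2 * ε ^ (6 / 5 : ℝ) * (d / ρ) * d * Yf cd x d ∧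
  (∀ W : Gap cd, W.Meets x ρ → W.s ≤ ε ^ (59 / 100 : ℝ) * ρ) ∧
  ∫ t in Icc (x - D) (x + D) \ Icc (x - ρ) (x + ρ), vf cd t / |t - x| ^ 3 ≤ ε ^ (119 / 100 : ℝ) * Yf cd x ρ / ρ ^ 2 ∧
  ∫ t in Icc (x - D) (x + D) \ Icc (x - ρ) (x + ρ), vf cd t / |t - x| ^ 2 ≤ ε ^ (119 / 100 : ℝ) * Yf cd x D / ρ

/-- Q9: integrals of v/|q0| far from x (V0 to the left of x, at distance D), in terms of the local amplitude -/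
def ST_Q9 : Prop := ∃ K ε0 : ℝ, 1 ≤ K ∧ 0 < ε0 ∧ ∀ (ε Hm Hp : ℝ) (C : Set ℝ) (cd : CD Hm Hp C), Par ε Hm Hp → ε ≤ ε0 →
  ∀ (V0 : Gap cd) (x D R A : ℝ), 1000 ≤ |V0.mu| → V0.LW R → D = x - V0.b → 0 < D → K * (D + V0.s) ≤ R →
  A = ‖V0.g ((x : ℂ) + (D : ℂ) * I)‖ →
  ∀ k : ℕ, (k = 2 ∨ k = 3) →
  IntegrableOn (fun t => vf cd t / (|V0.q t| * |t - x| ^ k)) {t : ℝ | D / 2 < |t - x|} ∧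
  ∫ t in {t : ℝ | D / 2 < |t - x|}, vf cd t / (|V0.q t| * |t - x| ^ k) ≤
    K * A * (ε ^ 2 / D ^ (k - 1) + (R / D) ^ (1 / 10 : ℝ) / R ^ (k - 1))

/-- mass near a gap, weighted -/
def nn {Hm Hp : ℝ} {C : Set ℝ} {cd : CD Hm Hp C} (x ρ : ℝ) (V : Gap cd) : ℝ :=
  ∫ t in Icc (x - ρ) (x + ρ), vf cd t / |V.q t|

/-- local law with reference V0 (to the left) -/
def UU {Hm Hp : ℝ} {C : Set ℝ} {cd : CD Hm Hp C} (V0 : Gap cd) (x P0 P1 t : ℝ) : ℝ :=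
  Real.sqrt ((t - V0.c) ^ 2 - (V0.s / 2) ^ 2) * (P0 + P1 * (t - x))

def UD {Hm Hp : ℝ} {C : Set ℝ} {cd : CD Hm Hp C} (V0 : Gap cd) (x P0 P1 t : ℝ) : ℝ :=
  (t - V0.c) / Real.sqrt ((t - V0.c) ^ 2 - (V0.s / 2) ^ 2) * (P0 + P1 * (t - x)) +
    Real.sqrt ((t - V0.c) ^ 2 - (V0.s / 2) ^ 2) * P1

/-- error exponent function -/
def eB (ε ρ D R : ℝ) : ℝ := ε ^ (117 / 100 : ℝ) + ρ * D / R ^ 2 * (R / D) ^ (1 / 10 : ℝ)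

/-- Q10: local law -/
def ST_Q10 : Prop := ∃ K ε0 : ℝ, 1 ≤ K ∧ 0 < ε0 ∧ ∀ (ε Hm Hp : ℝ) (C : Set ℝ) (cd : CD Hm Hp C), Par ε Hm Hp → ε ≤ ε0 →
  ∀ (V0 : Gap cd) (x ρ D R : ℝ), 1000 ≤ |V0.mu| → V0.LW R → D = x - V0.b → 0 < ρ → 7 / 5 * ρ ≤ D →
  D ≤ ε ^ (-(21 / 20) : ℝ) * ρ → (D + V0.s) ≤ ε ^ (3 / 10 : ℝ) * R →
  Reg cd ε x ρ (D / 2) (fun _ => False) → Reg cd ε x ρ ρ (fun _ => False) →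
  ∃ P0 P1 : ℝ, 0 < P0 ∧
    |P1| * ρ ≤ K * (ε ^ (115 / 100 : ℝ) + ρ / R * (R / D) ^ (1 / 10 : ℝ)) * P0 ∧
    P0 * Real.sqrt (D * (D + V0.s)) * ρ ≤ K * D * Yf cd x ρ ∧
    Yf cd x ρ ≤ 3 * P0 * Real.sqrt (D * (D + V0.s)) ∧
    ∀ V : Gap cd, x - 3 / 5 * ρ ≤ V.a → V.b ≤ x + 3 / 5 * ρ → V.s ≤ ε ^ (59 / 100 : ℝ) * ρ →
      |V.N - V0.N - UU V0 x P0 P1 V.c| ≤ (D + 3 / 5 * ρ) / (D - ρ) / Real.pi * nn x ρ V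
        + K * eB ε ρ D R * Yf cd x ρ ∧
      UD V0 x P0 P1 V.c - 5 / 4 * |V.N - V0.N - UU V0 x P0 P1 V.c| / ρ - K * eB ε ρ D R * Yf cd x ρ / ρ ≤ V.kk

/-- Q11: flat law (no violators within ε^(-1.05) ρ) -/
def ST_Q11 : Prop := ∃ K ε0 : ℝ, 1 ≤ K ∧ 0 < ε0 ∧ ∀ (ε Hm Hp : ℝ) (C : Set ℝ) (cd : CD Hm Hp C), Par ε Hm Hp → ε ≤ ε0 →
  ∀ (x ρ : ℝ), 0 < ρ → Reg cd ε x ρ (ε ^ (-(21 / 20) : ℝ) * ρ) (fun _ => False) →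
  ∃ P0 : ℝ, 0 < P0 ∧
    (∀ V : Gap cd, x - 3 / 5 * ρ ≤ V.a → V.b ≤ x + 3 / 5 * ρ → V.s ≤ ε ^ (59 / 100 : ℝ) * ρ →
      P0 * (1 - ε ^ (103 / 100 : ℝ)) ≤ V.kk ∧
      ∀ W : Gap cd, x - 3 / 5 * ρ ≤ W.a → W.b ≤ x + 3 / 5 * ρ → W.s ≤ ε ^ (59 / 100 : ℝ) * ρ →
        3 / 10 * ρ ≤ |V.c - W.c| →
        |(W.N - V.N) - P0 * (W.c - V.c)| ≤ ε ^ (103 / 100 : ℝ) * P0 * ρ + K * (nn x ρ V + nn x ρ W))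

end

end Pool.Agent.Helper36.CV
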