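import Pool.Agent.Helper36.CV.StmtsQ

set_option autoImplicit false

namespace Pool.Agent.Helper36.CV

open Complex Filter Topology MeasureTheory Set Pointwise

noncomputable section

/-! Block R: pieces of K' = x - K against the gaps of C. Part A: definitions. -/

/-- the gap (a,b) is a witness for the interval [l,r] -/
def Wit (ε a b l r : ℝ) : Prop :=
  (a - 13 / 10 * ε * (r - l) ≤ l ∧ r ≤ b + 13 / 10 * ε * (r - l)) ∨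
  ((1 + 30 * ε ^ (2 / 3 : ℝ)) * (r - l) ≤ b - a ∧ a - (r - l) / 10 ≤ l ∧ r ≤ b + (r - l) / 10) ∨
  (21 / 20 * (r - l) ≤ b - a ∧ ((a ≤ r ∧ l ≤ b) ∨
    ((b - a) / 2 < |(l + r) / 2 - (a + b) / 2| ∧
      8 * ε * |(l + r) / 2 - (a + b) / 2| * (((l + r) / 2 - (a + b) / 2) ^ 2 - ((b - a) / 2) ^ 2) ≤
        (r - l) * ((b - a) / 2) ^ 2)))

/-- no gap of C is a witness -/
def PSt (C : Set ℝ) (ε l r : ℝ) : Prop := ∀ a b : ℝ, IsG C a b → ¬ Wit ε a b l r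

/-- parent [l,r] of type τ with children [l0,r0], [l1,r1], [l2,r2] -/
structure Kids (ε cK τ l r l0 r0 l1 r1 l2 r2 : ℝ) : Prop where
  lt : l < r
  tt : τ = -1 ∨ τ = 0 ∨ τ = 1
  e0 : l0 = l
  e2 : r2 = r
  n0 : |(r0 - l0) - ε * (1 + 2 * ε * τ) * (r - l)| ≤ cK * ε ^ 3 * (r - l)
  n2 : |(r2 - l2) - ε * (1 - 2 * ε * τ) * (r - l)| ≤ cK * ε ^ 3 * (r - l)
  n1 : |(r1 - l1) - 4 * ε ^ 2 * (r - l)| ≤ cK * ε ^ 3 * (r - l)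
  c1 : |(r1 + l1) / 2 - (r + l) / 2 - 3 / 4 * τ * ε * (r - l)| ≤ cK * ε ^ 2 * (r - l)

/-- good region around [l,r] -/
structure Good {Hm Hp : ℝ} {C : Set ℝ} (cd : CD Hm Hp C) (ε l r : ℝ) : Prop where
  inn : ∀ t : ℝ, |t - (l + r) / 2| ≤ (r - l) / ε ^ 3 → 0 < Nf cd t ∧ Nf cd t < 1
  big : ∀ W : Gap cd, W.Meets ((l + r) / 2) ((r - l) / ε ^ 3) → 1 / ε ^ 4 ≤ |W.mu|

/-- the end children have different witnesses VL, VR -/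
structure Pair {Hm Hp : ℝ} {C : Set ℝ} (cd : CD Hm Hp C) (ε cK τ l r l0 r0 l1 r1 l2 r2 : ℝ) (VL VR : Gap cd) : Prop where
  kids : Kids ε cK τ l r l0 r0 l1 r1 l2 r2
  good : Good cd ε l r
  ne : VL ≠ VR
  wL : Wit ε VL.a VL.b l0 r0
  wR : Wit ε VR.a VR.b l2 r2
  sL : VL.s < 21 / 20 * (r - l)
  sR : VR.s < 21 / 20 * (r - l)

/-! Part B: elementary facts and context A. -/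

/-- R0: elementary facts on witnesses; z = r - l; reflection -/
def ST_R0 : Prop := ∃ ε0 : ℝ, 0 < ε0 ∧ ∀ ε a b l r : ℝ, 0 < ε → ε ≤ ε0 → a < b → l < r →
  (Wit ε a b l r ↔ Wit ε (-b) (-a) (-r) (-l)) ∧
  (Wit ε a b l r →
    (1 - 26 / 10 * ε) * (r - l) ≤ b - a ∧
    a ≤ (l + r) / 2 + (r - l) / (16 * ε) ∧ (l + r) / 2 - (r - l) / (16 * ε) ≤ b ∧
    (b - a < (1 + 30 * ε ^ (2 / 3 : ℝ)) * (r - l) →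
      |(a + b) / 2 - (l + r) / 2| ≤ ((b - a) - (r - l)) / 2 + 13 / 10 * ε * (r - l)) ∧
    (b - a < 21 / 20 * (r - l) →
      |(a + b) / 2 - (l + r) / 2| ≤ ((b - a) - (r - l)) / 2 + (r - l) / 10) ∧
    (|(a + b) / 2 - (l + r) / 2| ≤ (b - a) / 2 - 2 / 5 * (r - l) ∨
      (21 / 20 * (r - l) ≤ b - a ∧ |(a + b) / 2 - (l + r) / 2| ≤ (b - a) / 2 + (r - l) / 2) ∨
      (21 / 20 * (r - l) ≤ b - a ∧ (b - a) / 2 < |(l + r) / 2 - (a + b) / 2| ∧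
        8 * ε * |(l + r) / 2 - (a + b) / 2| * (((l + r) / 2 - (a + b) / 2) ^ 2 - ((b - a) / 2) ^ 2) ≤
        (r - l) * ((b - a) / 2) ^ 2)))

/-- R1: a witness of an end child of a stable piece is smaller than 1.05 rho -/
def ST_R1 : Prop := ∀ cK : ℝ, 1 ≤ cK → ∃ ε0 : ℝ, 0 < ε0 ∧ ∀ (C : Set ℝ) (ε τ l r l0 r0 l1 r1 l2 r2 : ℝ), 0 < ε → ε ≤ ε0 →
  Kids ε cK τ l r l0 r0 l1 r1 l2 r2 → PSt C ε l r → ∀ a b : ℝ, IsG C a b →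
  (Wit ε a b l0 r0 ∨ Wit ε a b l2 r2) → b - a < 21 / 20 * (r - l)

/-- R2: basic facts on a pair -/
def ST_R2 : Prop := ∀ cK : ℝ, 1 ≤ cK → ∃ ε0 : ℝ, 0 < ε0 ∧ ∀ (ε Hm Hp : ℝ) (C : Set ℝ) (cd : CD Hm Hp C), Par ε Hm Hp → ε ≤ ε0 →
  ∀ (τ l r l0 r0 l1 r1 l2 r2 : ℝ) (VL VR : Gap cd), Pair cd ε cK τ l r l0 r0 l1 r1 l2 r2 VL VR →
  VL.b < VR.a ∧ Yf cd ((l + r) / 2) (r - l) ≤ 4 * (VR.N - VL.N) ∧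
  VR.N - VL.N ≤ 12 * Yf cd ((l + r) / 2) (r - l) ∧
  |VL.mu| * Yf cd ((l + r) / 2) (r - l) ≤ 2 ∧ |VR.mu| * Yf cd ((l + r) / 2) (r - l) ≤ 2 ∧
  Yf cd ((l + r) / 2) (r - l) ≤ ε ^ 3

/-- R3: no violator within distance 1.4 rho; consequences -/
def ST_R3 : Prop := ∀ cK : ℝ, 1 ≤ cK → ∃ ε0 : ℝ, 0 < ε0 ∧ ∀ (ε Hm Hp : ℝ) (C : Set ℝ) (cd : CD Hm Hp C), Par ε Hm Hp → ε ≤ ε0 →
  ∀ (τ l r l0 r0 l1 r1 l2 r2 : ℝ) (VL VR : Gap cd), Pair cd ε cK τ l r l0 r0 l1 r1 l2 r2 VL VR →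
  (∀ V : Gap cd, ¬ NV ε ((l + r) / 2) (r - l) V → 7 / 5 * (r - l) < V.dist ((l + r) / 2)) ∧
  Reg cd ε ((l + r) / 2) (r - l) (r - l) (fun _ => False) ∧
  VL.s ≤ ε ^ (59 / 100 : ℝ) * (r - l) ∧ VR.s ≤ ε ^ (59 / 100 : ℝ) * (r - l) ∧
  |VL.c - (l0 + r0) / 2| ≤ ε ^ (1 / 3 : ℝ) * (r - l) ∧ |VR.c - (l2 + r2) / 2| ≤ ε ^ (1 / 3 : ℝ) * (r - l)

/-- R4: bound for nn -/
def ST_R4 : Prop := ∃ K ε0 : ℝ, 1 ≤ K ∧ 0 < ε0 ∧ ∀ (ε Hm Hp : ℝ) (C : Set ℝ) (cd : CD Hm Hp C), Par ε Hm Hp → ε ≤ ε0 →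
  ∀ (x ρ : ℝ) (V : Gap cd), 0 < ρ → Reg cd ε x ρ ρ (fun _ => False) → |V.c - x| ≤ 3 / 5 * ρ →
  3 * ε ^ 2 * ρ ≤ V.s → V.s ≤ ε ^ (59 / 100 : ℝ) * ρ →
  nn x ρ V ≤ K * ε ^ (6 / 5 : ℝ) * (1 + ε * ρ / V.s) * Yf cd x ρ

/-- R5: sharp bound for nn of a central gap G; Nc is the central label -/
def ST_R5 : Prop := ∃ ε0 : ℝ, 0 < ε0 ∧ ∀ (ε Hm Hp : ℝ) (C : Set ℝ) (cd : CD Hm Hp C), Par ε Hm Hp → ε ≤ ε0 →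
  ∀ (x ρ p Nc : ℝ) (G : Gap cd), 0 < ρ → Reg cd ε x ρ ρ (fun _ => False) → 0 < p → p ≤ 1 / 10 ^ 4 →
  Yf cd x ρ ≤ 4 * p → p ≤ 12 * Yf cd G.c (52 / 100 * ρ) → |G.c - x| ≤ 3 / 10 * ρ →
  39 / 10 * ε ^ 2 * ρ ≤ G.s → G.s ≤ ε ^ (59 / 100 : ℝ) * ρ →
  |2 * (G.N - Nc) / p| ≤ 1 / 25 →
  (∀ W : Gap cd, W.Meets G.c (ρ / 10) → |2 * (W.N - Nc) / p| ≤ 1 ∧
    1 ≤ |2 * (W.N - Nc) / p| * (2 * p * |W.mu| + 1 / 4)) →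
  nn x ρ G ≤ 60 * ε * (2 * (G.N - Nc) / p) ^ 2 * p + ε ^ (11 / 10 : ℝ) * p

/-! Part C: the environment lemma. -/

/-- V0 is the nearest violator, at distance D, to the left of the centre -/
structure NL {Hm Hp : ℝ} {C : Set ℝ} (cd : CD Hm Hp C) (ε x ρ D : ℝ) (V0 : Gap cd) : Prop where
  left : V0.b < x
  dD : D = x - V0.b
  viol : ¬ NV ε x ρ V0
  near : ∀ V : Gap cd, ¬ NV ε x ρ V → D ≤ V.dist x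

/-- R6: the label window of the nearest violator -/
def ST_R6 : Prop := ∀ cK : ℝ, 1 ≤ cK → ∃ ε0 : ℝ, 0 < ε0 ∧ ∀ (ε Hm Hp : ℝ) (C : Set ℝ) (cd : CD Hm Hp C), Par ε Hm Hp → ε ≤ ε0 →
  ∀ (τ l r l0 r0 l1 r1 l2 r2 : ℝ) (VL VR : Gap cd), Pair cd ε cK τ l r l0 r0 l1 r1 l2 r2 VL VR →
  ∀ (D : ℝ) (V0 : Gap cd), NL cd ε ((l + r) / 2) (r - l) D V0 → D ≤ ε ^ (-(21 / 20) : ℝ) * (r - l) →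
  7 / 5 * (r - l) < D ∧ 1000 ≤ |V0.mu| ∧
  Reg cd ε ((l + r) / 2) (r - l) (D / 2) (fun _ => False) ∧
  (V0.s ≤ 2 * D → V0.LW (3 / 100 * ε ^ (-(2 / 5) : ℝ) * Real.sqrt (D / (r - l)) * D)) ∧
  V0.LW (V0.s / (4 * ε)) ∧ |V0.mu| * Yf cd ((l + r) / 2) (2 * D) ≤ 2 * ε ^ (2 / 5 : ℝ)

/-- integers of Q(sqrt 5): value, conjugate, norm, product -/
def zv (x : ℤ × ℤ) : ℝ := x.1 + x.2 * gam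
def zc (x : ℤ × ℤ) : ℝ := x.1 - x.2 * phi
def zn (x : ℤ × ℤ) : ℤ := x.1 ^ 2 - x.1 * x.2 - x.2 ^ 2
def zm (x y : ℤ × ℤ) : ℤ × ℤ := (x.1 * y.1 + x.2 * y.2, x.1 * y.2 + x.2 * y.1 - x.2 * y.2)

/-- N0: arithmetic of Z[phi] -/
def ST_N0 : Prop :=
  (∀ x y : ℤ × ℤ, zv (zm x y) = zv x * zv y ∧ zc (zm x y) = zc x * zc y ∧ zn (zm x y) = zn x * zn y) ∧
  (∀ x : ℤ × ℤ, zv x * zc x = zn x) ∧ (∀ x : ℤ × ℤ, zn x = 0 → x = 0) ∧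
  (∀ x y : ℤ × ℤ, zv x = zv y → x = y) ∧
  (∀ p : ℤ × ℤ, |zn p| = 1 → ∀ x : ℤ × ℤ, ∃ y : ℤ × ℤ, zm p y = x) ∧
  (∀ {Hm Hp : ℝ} {C : Set ℝ} (cd : CD Hm Hp C) (V : Gap cd), V.N = zv (V.n, V.m) ∧ V.N - V.mu = zc (V.n, V.m)) ∧
  (∀ x : ℤ × ℤ, |zn x| = 1 → 0 < zv x → ∃ k : ℤ, zv x = phi ^ k) ∧
  (∀ (k : ℤ) (a : ℤ × ℤ), phi ^ k = 1 + 2 * zv a → ∃ j : ℤ, k = 3 * j) ∧
  (∀ (k : ℤ) (a : ℤ × ℤ), phi ^ k = 1 + 4 * zv a → ∃ j : ℤ, k = 6 * j)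

/-- L1: algebra of the hyperbola q = sqrt(tau^2-h^2) -/
def ST_L1 : Prop := ∀ h τL τR qL qR g u : ℝ, 0 ≤ h → h < τL → τL < τR → qL = Real.sqrt (τL ^ 2 - h ^ 2) →
  qR = Real.sqrt (τR ^ 2 - h ^ 2) → g = (qL + qR) / (τL + τR) → u = (qL + qR) / (qR - qL) →
  0 < qL ∧ qL < qR ∧ (qR - qL) * (qL + qR) = (τR - τL) * (τL + τR) ∧
  u * (1 - (qR - qL) * qL / ((τR - τL) * τL)) = 1 - g * qL / τL ∧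
  u * ((qR - qL) * qR / ((τR - τL) * τR) - 1) = 1 - g * qR / τR ∧
  u = g ^ 2 * (τL + τR) / (τR - τL) ∧
  (qR - qL) * (qL / τL + qR / τR) ≤ 2 * (τR - τL) ∧
  0 ≤ g * qL / τL ∧ g * qL / τL ≤ g ^ 2 ∧ (qL / τL) ^ 2 ≤ g * qL / τL ∧ g ^ 2 ≤ g * qR / τR ∧ g * qR / τR ≤ 1 ∧
  (qR - qL) * qL ≤ (τR - τL) * τL ∧ (τR - τL) * τR ≤ (qR - qL) * qR

/-- L2: perturbation by the factor 1 + c X -/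
def ST_L2 : Prop := ∀ h τL τR qL qR c XL XR ρ D WL WR DL DR : ℝ, 0 ≤ h → h < τL → τL < τR → qL = Real.sqrt (τL ^ 2 - h ^ 2) →
  qR = Real.sqrt (τR ^ 2 - h ^ 2) → 0 < ρ → ρ ≤ D → D ≤ 5 / 2 * (τL - h) → τR - h ≤ 2 * D → |XL| ≤ ρ → |XR| ≤ ρ → XR - XL = τR - τL →
  ρ / 2 ≤ τR - τL → |c| * D ≤ 1 / 100 →
  WL = qL * (1 + c * XL) → WR = qR * (1 + c * XR) → DL = τL / qL * (1 + c * XL) + c * qL → DR = τR / qR * (1 + c * XR) + c * qR →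
  0 < DL ∧ 0 < DR ∧ 0 < WL ∧ WL < WR ∧
  |(WR - WL) - (qR - qL)| ≤ 10 * |c| * D * (qR - qL) ∧
  |DL - τL / qL| ≤ 10 * |c| * D * (τL / qL) ∧ |DR - τR / qR| ≤ 10 * |c| * D * (τR / qR) ∧
  |(WL + WR) / (WR - WL) - (qL + qR) / (qR - qL)| ≤ 20 * |c| * D * ((qL + qR) / (qR - qL)) ∧
  |(WL + WR) / (WR - WL) * (1 - (WR - WL) / ((τR - τL) * DL)) -
    (qL + qR) / (qR - qL) * (1 - (qR - qL) * qL / ((τR - τL) * τL))| ≤ 100 * |c| * D ∧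
  |(WL + WR) / (WR - WL) * ((WR - WL) / ((τR - τL) * DR) - 1) -
    (qL + qR) / (qR - qL) * ((qR - qL) * qR / ((τR - τL) * τR) - 1)| ≤ 100 * |c| * D

/-- L3: sum of the slopes, case I -/
def ST_L3 : Prop := ∀ h τL τR qL qR c XL XR ρ D WL WR DL DR : ℝ, 0 < h → h < τL → τL < τR → qL = Real.sqrt (τL ^ 2 - h ^ 2) →
  qR = Real.sqrt (τR ^ 2 - h ^ 2) → 0 < ρ → ρ ≤ D → D ≤ 5 / 2 * (τL - h) → τR - h ≤ 2 * D → D ≤ h / 5 →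
  |XL| ≤ ρ → |XR| ≤ ρ → XR - XL = τR - τL → |c| * h ≤ 1 / 100 →
  WL = qL * (1 + c * XL) → WR = qR * (1 + c * XR) → DL = τL / qL * (1 + c * XL) + c * qL → DR = τR / qR * (1 + c * XR) + c * qR →
  (WR - WL) * (1 / DL + 1 / DR) ≤ 2 * (τR - τL)

/-- L4: the identity of case I -/
def ST_L4 : Prop := ∀ h τ ρ c XL XR XG WL WR WG uL uR uG p u α η ηG : ℝ, 0 ≤ h → 0 < ρ → h + 7 / 5 * ρ ≤ τ → 1000 * ρ ≤ τ →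
  |XL + ρ / 2| ≤ ρ / 20 → |XR - ρ / 2| ≤ ρ / 20 → |XG| ≤ ρ / 2 → |c| * τ ≤ 1 / 100 →
  WL = Real.sqrt ((τ + XL) ^ 2 - h ^ 2) * (1 + c * XL) → WR = Real.sqrt ((τ + XR) ^ 2 - h ^ 2) * (1 + c * XR) →
  WG = Real.sqrt ((τ + XG) ^ 2 - h ^ 2) * (1 + c * XG) →
  p = uR - uL → 0 < p → u * p = uL + uR → α * p = uG → 0 ≤ η → η ≤ 1 / 100 → 0 ≤ ηG → ηG ≤ 1 / 10 →
  |uL - WL| ≤ η * p → |uR - WR| ≤ η * p → |uG - WG| ≤ ηG * p →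
  |4 * α ^ 2 - u ^ 2 - 1 - 4 * u * (XG - (XL + XR) / 2) / (XR - XL) + u * (XR - XL) / (2 * τ)| ≤
    u * (XR - XL) / (2 * τ) * (12 * |c| * τ + 2 * |XL + XR| / τ + 5 * (XG - (XL + XR) / 2) ^ 2 / (XR - XL) ^ 2)
    + 8 * α * ηG + 12 * ηG ^ 2 + 20 * u * η

/-- R7: environment lemma: the nearest violator within eps^(-9/10) rho is huge -/
def ST_R7 : Prop := ∀ cK : ℝ, 1 ≤ cK → ∃ ε0 : ℝ, 0 < ε0 ∧ ∀ (ε Hm Hp : ℝ) (C : Set ℝ) (cd : CD Hm Hp C), Par ε Hm Hp → ε ≤ ε0 →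
  ∀ (τ l r l0 r0 l1 r1 l2 r2 : ℝ) (VL VR : Gap cd), Pair cd ε cK τ l r l0 r0 l1 r1 l2 r2 VL VR →
  ∀ (D : ℝ) (V0 : Gap cd), NL cd ε ((l + r) / 2) (r - l) D V0 → D ≤ ε ^ (-(9 / 10) : ℝ) * (r - l) →
  D ≤ ε ^ (1 / 20 : ℝ) * V0.s

/-- quadratic law near x (used when there is no violator within eps^(-9/10) rho) -/
def QLaw {Hm Hp : ℝ} {C : Set ℝ} (cd : CD Hm Hp C) (ε K x ρ α k2 : ℝ) : Prop := 0 < α ∧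
  |k2| ≤ 8 * ε + ε ^ (102 / 100 : ℝ) ∧
  ∀ V : Gap cd, x - 3 / 5 * ρ ≤ V.a → V.b ≤ x + 3 / 5 * ρ → V.s ≤ ε ^ (59 / 100 : ℝ) * ρ →
    α * (1 - 10 * ε) ≤ V.kk + K / ρ * nn x ρ V + ε ^ (11 / 10 : ℝ) * Yf cd x ρ / ρ ∧
    ∀ W : Gap cd, x - 3 / 5 * ρ ≤ W.a → W.b ≤ x + 3 / 5 * ρ → W.s ≤ ε ^ (59 / 100 : ℝ) * ρ →
      3 / 10 * ρ ≤ |V.c - W.c| →
      |(W.N - V.N) - α * ((W.c - V.c) + k2 / (2 * ρ) * ((W.c - x) ^ 2 - (V.c - x) ^ 2))| ≤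
        ε ^ (102 / 100 : ℝ) * α * ρ + ε ^ (11 / 10 : ℝ) * Yf cd x ρ + K * (nn x ρ V + nn x ρ W)

/-- R8: quadratic law from the local law (violator on the left, not a witness of [l,r]) -/
def ST_R8 : Prop := ∀ cK : ℝ, 1 ≤ cK → ∃ K ε0 : ℝ, 1 ≤ K ∧ 0 < ε0 ∧ ∀ (ε Hm Hp : ℝ) (C : Set ℝ) (cd : CD Hm Hp C), Par ε Hm Hp → ε ≤ ε0 →
  ∀ (τ l r l0 r0 l1 r1 l2 r2 : ℝ) (VL VR : Gap cd), Pair cd ε cK τ l r l0 r0 l1 r1 l2 r2 VL VR →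
  ∀ (D : ℝ) (V0 : Gap cd), NL cd ε ((l + r) / 2) (r - l) D V0 → D ≤ ε ^ (-(21 / 20) : ℝ) * (r - l) →
  ε ^ (-(9 / 10) : ℝ) * (r - l) ≤ D → ¬ Wit ε V0.a V0.b l r →
  ∃ α k2 : ℝ, QLaw cd ε K ((l + r) / 2) (r - l) α k2

/-- R9: the final step of case II, from the quadratic law -/
def ST_R9 : Prop := ∀ cK K : ℝ, 1 ≤ cK → 1 ≤ K → ∃ ε0 : ℝ, 0 < ε0 ∧ ∀ (ε Hm Hp : ℝ) (C : Set ℝ) (cd : CD Hm Hp C), Par ε Hm Hp → ε ≤ ε0 →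
  ∀ (τ l r l0 r0 l1 r1 l2 r2 : ℝ) (VL VR : Gap cd), Pair cd ε cK τ l r l0 r0 l1 r1 l2 r2 VL VR →
  ∀ α k2 : ℝ, QLaw cd ε K ((l + r) / 2) (r - l) α k2 →
  ∀ G : Gap cd, ¬ Wit ε G.a G.b l1 r1

/-- R10: case II -/
def ST_R10 : Prop := ∀ cK : ℝ, 1 ≤ cK → ∃ ε0 : ℝ, 0 < ε0 ∧ ∀ (ε Hm Hp : ℝ) (C : Set ℝ) (cd : CD Hm Hp C), Par ε Hm Hp → ε ≤ ε0 →
  ∀ (τ l r l0 r0 l1 r1 l2 r2 : ℝ) (VL VR : Gap cd), Pair cd ε cK τ l r l0 r0 l1 r1 l2 r2 VL VR →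
  PSt C ε l r → PSt C ε l1 r1

/-! Part D: case I. The gap V0 is a witness of both end children of the stable piece [l,r] (type τ0),
the right end child Y = [l2,r2] is the farther one; its children are [k0,s0], [k1,s1], [k2,s2]. -/

structure C1 {Hm Hp : ℝ} {C : Set ℝ} (cd : CD Hm Hp C) (ε cK τ0 l r l0 r0 l1 r1 l2 r2 k0 s0 k1 s1 k2 s2 : ℝ)
    (V0 : Gap cd) : Prop where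
  kids : Kids ε cK τ0 l r l0 r0 l1 r1 l2 r2
  kidsY : Kids ε cK 1 l2 r2 k0 s0 k1 s1 k2 s2
  good : Good cd ε l r
  w0 : Wit ε V0.a V0.b l0 r0
  w2 : Wit ε V0.a V0.b l2 r2
  nw : ¬ Wit ε V0.a V0.b l r
  far : V0.a - l ≤ r - V0.b

/-- R11: geometry of case I. x = centre of Y, ρ = |Y|, D = x - V0.b -/
def ST_R11 : Prop := ∀ cK : ℝ, 1 ≤ cK → ∃ ε0 : ℝ, 0 < ε0 ∧ ∀ (ε Hm Hp : ℝ) (C : Set ℝ) (cd : CD Hm Hp C), Par ε Hm Hp → ε ≤ ε0 →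
  ∀ (τ0 l r l0 r0 l1 r1 l2 r2 k0 s0 k1 s1 k2 s2 : ℝ) (V0 : Gap cd),
  C1 cd ε cK τ0 l r l0 r0 l1 r1 l2 r2 k0 s0 k1 s1 k2 s2 V0 → ∀ x ρ D : ℝ, x = (l2 + r2) / 2 → ρ = r2 - l2 → D = x - V0.b →
  77 / 100 * ρ ≤ D ∧ 8 * ε * (x - V0.c) * ((x - V0.c) ^ 2 - (V0.s / 2) ^ 2) ≤ ρ * (V0.s / 2) ^ 2 ∧
  D ≤ ρ / (16 * ε) ∧ (1 - 31 * ε ^ (2 / 3 : ℝ)) * (ε * V0.s) ≤ ρ ∧ ρ ≤ 115 / 100 * (ε * V0.s) ∧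
  ρ ≤ (1 + 5 * ε * (D / ρ + 1)) * (ε * V0.s) ∧
  Good cd ε l2 r2 ∧ ¬ Wit ε V0.a V0.b k0 s0 ∧ ¬ Wit ε V0.a V0.b k2 s2 ∧ 1000 ≤ |V0.mu| ∧
  ¬ NV ε x ρ V0

/-- R12: in case I, witnesses of the end children of Y form a pair, and V0 is the nearest violator of Y -/
def ST_R12 : Prop := ∀ cK : ℝ, 1 ≤ cK → ∃ ε0 : ℝ, 0 < ε0 ∧ ∀ (ε Hm Hp : ℝ) (C : Set ℝ) (cd : CD Hm Hp C), Par ε Hm Hp → ε ≤ ε0 →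
  ∀ (τ0 l r l0 r0 l1 r1 l2 r2 k0 s0 k1 s1 k2 s2 : ℝ) (V0 : Gap cd),
  C1 cd ε cK τ0 l r l0 r0 l1 r1 l2 r2 k0 s0 k1 s1 k2 s2 V0 → ∀ VL VR : Gap cd,
  Wit ε VL.a VL.b k0 s0 → Wit ε VR.a VR.b k2 s2 →
  Pair cd ε cK 1 l2 r2 k0 s0 k1 s1 k2 s2 VL VR ∧ NL cd ε ((l2 + r2) / 2) (r2 - l2) ((l2 + r2) / 2 - V0.b) V0

/-- the law of case I: W(t) = sqrt((t-c0)^2-h^2)(1+c(t-x)), labels relative to V0 are P0*W -/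
structure LawI {Hm Hp : ℝ} {C : Set ℝ} (cd : CD Hm Hp C) (ε x ρ D : ℝ) (V0 : Gap cd) (P0 c : ℝ) : Prop where
  dD : D = x - V0.b
  p0 : 0 < P0
  cc : |c| * ρ ≤ ε ^ (114 / 100 : ℝ)
  law : ∀ V : Gap cd, x - 3 / 5 * ρ ≤ V.a → V.b ≤ x + 3 / 5 * ρ → V.s ≤ ε ^ (59 / 100 : ℝ) * ρ →
    |V.N - V0.N - UU V0 x P0 (P0 * c) V.c| ≤ (D + 3 / 5 * ρ) / (D - ρ) / Real.pi * nn x ρ V
        + ε ^ (116 / 100 : ℝ) * Yf cd x ρ ∧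
    UD V0 x P0 (P0 * c) V.c - 5 / 4 * |V.N - V0.N - UU V0 x P0 (P0 * c) V.c| / ρ
      - ε ^ (116 / 100 : ℝ) * Yf cd x ρ / ρ ≤ V.kk

/-- all data of case I -/
structure CI {Hm Hp : ℝ} {C : Set ℝ} (cd : CD Hm Hp C) (ε cK x ρ D : ℝ) (τ0 l r l0 r0 l1 r1 l2 r2 k0 s0 k1 s1 k2 s2 : ℝ)
    (V0 VL VR : Gap cd) (P0 c : ℝ) : Prop where
  c1 : C1 cd ε cK τ0 l r l0 r0 l1 r1 l2 r2 k0 s0 k1 s1 k2 s2 V0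
  hx : x = (l2 + r2) / 2
  hρ : ρ = r2 - l2
  pair : Pair cd ε cK 1 l2 r2 k0 s0 k1 s1 k2 s2 VL VR
  law : LawI cd ε x ρ D V0 P0 c

/-- R13: existence of the law -/
def ST_R13 : Prop := ∀ cK : ℝ, 1 ≤ cK → ∃ ε0 : ℝ, 0 < ε0 ∧ ∀ (ε Hm Hp : ℝ) (C : Set ℝ) (cd : CD Hm Hp C), Par ε Hm Hp → ε ≤ ε0 →
  ∀ (τ0 l r l0 r0 l1 r1 l2 r2 k0 s0 k1 s1 k2 s2 : ℝ) (V0 VL VR : Gap cd),
  C1 cd ε cK τ0 l r l0 r0 l1 r1 l2 r2 k0 s0 k1 s1 k2 s2 V0 →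
  Wit ε VL.a VL.b k0 s0 → Wit ε VR.a VR.b k2 s2 →
  ∃ P0 c : ℝ, CI cd ε cK ((l2 + r2) / 2) (r2 - l2) ((l2 + r2) / 2 - V0.b) τ0 l r l0 r0 l1 r1 l2 r2 k0 s0 k1 s1 k2 s2
    V0 VL VR P0 c

/-- R14: the label difference of the pair is a unit; positions -/
def ST_R14 : Prop := ∀ cK : ℝ, 1 ≤ cK → ∃ K ε0 : ℝ, 1 ≤ K ∧ 0 < ε0 ∧ ∀ (ε Hm Hp : ℝ) (C : Set ℝ) (cd : CD Hm Hp C), Par ε Hm Hp → ε ≤ ε0 →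
  ∀ (x ρ D τ0 l r l0 r0 l1 r1 l2 r2 k0 s0 k1 s1 k2 s2 : ℝ) (V0 VL VR : Gap cd) (P0 c : ℝ),
  CI cd ε cK x ρ D τ0 l r l0 r0 l1 r1 l2 r2 k0 s0 k1 s1 k2 s2 V0 VL VR P0 c →
  |zn (VR.n - VL.n, VR.m - VL.m)| = 1 ∧
  |VL.c - (k0 + s0) / 2| ≤ K * ε ^ 2 * ρ ∧ |VR.c - (k2 + s2) / 2| ≤ K * ε ^ 2 * ρ ∧
  nn x ρ VL ≤ K * ε ^ (6 / 5 : ℝ) * Yf cd x ρ ∧ nn x ρ VR ≤ K * ε ^ (6 / 5 : ℝ) * Yf cd x ρ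

/-- R15: the number u = (N_L + N_R - 2 N_0)/p = 1 + 2 y -/
def ST_R15 : Prop := ∀ cK : ℝ, 1 ≤ cK → ∃ ε0 : ℝ, 0 < ε0 ∧ ∀ (ε Hm Hp : ℝ) (C : Set ℝ) (cd : CD Hm Hp C), Par ε Hm Hp → ε ≤ ε0 →
  ∀ (x ρ D τ0 l r l0 r0 l1 r1 l2 r2 k0 s0 k1 s1 k2 s2 : ℝ) (V0 VL VR : Gap cd) (P0 c : ℝ),
  CI cd ε cK x ρ D τ0 l r l0 r0 l1 r1 l2 r2 k0 s0 k1 s1 k2 s2 V0 VL VR P0 c →
  ∃ y : ℤ × ℤ, zm (VR.n - VL.n, VR.m - VL.m) y = (VL.n - V0.n, VL.m - V0.m) ∧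
  ∀ u t w : ℝ, u = 1 + 2 * zv y → t = ε * u → w = ρ / (2 * ε * (x - V0.c)) →
  |(zn (1 + 2 * y.1, 2 * y.2) : ℝ) - 1| ≤ 1025 / 10 * t + 1 / 1000 ∧ t ≤ 207 / 1000 ∧ 5 / 2 ≤ u ∧
  87 / 100 ≤ w ∧ w ≤ 115 / 100 ∧ |w - 1| ≤ ε ^ (65 / 100 : ℝ) + 5 * t ∧
  2 * D / ρ ≤ (1 + ε ^ (1 / 10 : ℝ)) * u ∧ u ≤ 4 * (D / ρ + 3 / 5) * (1 + ε ^ (1 / 10 : ℝ)) ∧
  |VL.mu + VR.mu| * (VR.N - VL.N) ≤ 24 / 100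

/-- R16: a witness G of the middle child of Y -/
def ST_R16 : Prop := ∀ cK : ℝ, 1 ≤ cK → ∃ ε0 : ℝ, 0 < ε0 ∧ ∀ (ε Hm Hp : ℝ) (C : Set ℝ) (cd : CD Hm Hp C), Par ε Hm Hp → ε ≤ ε0 →
  ∀ (x ρ D τ0 l r l0 r0 l1 r1 l2 r2 k0 s0 k1 s1 k2 s2 : ℝ) (V0 VL VR : Gap cd) (P0 c : ℝ),
  CI cd ε cK x ρ D τ0 l r l0 r0 l1 r1 l2 r2 k0 s0 k1 s1 k2 s2 V0 VL VR P0 c →
  ∀ G : Gap cd, Wit ε G.a G.b k1 s1 → ∀ u t w p α : ℝ, p = VR.N - VL.N → u * p = VL.N + VR.N - 2 * V0.N → t = ε * u →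
  w = ρ / (2 * ε * (x - V0.c)) → α * p = G.N - V0.N →
  |4 * α ^ 2 - u ^ 2 - 1 - t * (3 - w)| ≤ ε ^ (12 / 100 : ℝ) * t + 401 / 100 * u * |G.c - (k1 + s1) / 2| / ρ
      + 3 / 2 * ((D + 3 / 5 * ρ) / (D - ρ)) * u * nn x ρ G / p ∧
  39 / 10 * ε ^ 2 * ρ ≤ G.s ∧ G.s ≤ ε ^ (59 / 100 : ℝ) * ρ ∧ |G.c - x| ≤ ε ^ (1 / 2 : ℝ) * ρ ∧
  p * |G.mu| * G.s ≤ ε / 2 * ρ * (1 + 2 / u ^ 2 + ε ^ (1 / 10 : ℝ) + 4 * nn x ρ G / p)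

/-- output of case I for number theory: u = 1 + 2y, alpha = z -/
def ST_R17 : Prop := ∀ cK : ℝ, 1 ≤ cK → ∃ ε0 : ℝ, 0 < ε0 ∧ ∀ (ε Hm Hp : ℝ) (C : Set ℝ) (cd : CD Hm Hp C), Par ε Hm Hp → ε ≤ ε0 →
  ∀ (x ρ D τ0 l r l0 r0 l1 r1 l2 r2 k0 s0 k1 s1 k2 s2 : ℝ) (V0 VL VR : Gap cd) (P0 c : ℝ),
  CI cd ε cK x ρ D τ0 l r l0 r0 l1 r1 l2 r2 k0 s0 k1 s1 k2 s2 V0 VL VR P0 c →
  ∀ G : Gap cd, Wit ε G.a G.b k1 s1 → ∃ y z : ℤ × ℤ, ∀ u t α : ℝ, u = 1 + 2 * zv y → t = ε * u → α = zv z →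
  5 / 2 ≤ u ∧ 0 < α ∧ t ≤ 207 / 1000 ∧ |(zn (1 + 2 * y.1, 2 * y.2) : ℝ) - 1| ≤ 1025 / 10 * t + 1 / 1000 ∧
  (20 * ε ^ (-(1 / 3) : ℝ) ≤ u → ε * |2 * zc z - (1 + 2 * zc y)| ≤ 1001 / 4000 ∧
    183 / 100 * t ≤ 2 * u * (2 * α - u) - 1 ∧ 2 * u * (2 * α - u) - 1 ≤ 216 / 100 * t) ∧
  (15 ≤ u → u < 20 * ε ^ (-(1 / 3) : ℝ) → 78 / 10 * ε * |zc z| ≤ 1 ∧
    |4 * α ^ 2 - u ^ 2 - 1 - 2 * t| ≤ (14 / 10 * u ^ (-(2 / 3) : ℝ) + 100 / u ^ 2 + ε ^ (1 / 20 : ℝ)) * t)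

/-- arithmetic condition on ε -/
def ArithOK (ε : ℝ) : Prop := (∃ j : ℕ, 3 / 5 ≤ ε * phi ^ (6 * j) ∧ ε * phi ^ (6 * j) ≤ 19 / 10) ∧
  ∀ (i : ℕ) (u : ℝ), 1 ≤ i → u = phi ^ (6 * i) → u ≤ 20 * ε ^ (-(1 / 3) : ℝ) →
  ∀ z : ℤ × ℤ, 0 < zv z → 78 / 10 * ε * |zc z| ≤ 1 →
    (14 / 10 * u ^ (-(2 / 3) : ℝ) + 100 / u ^ 2 + ε ^ (1 / 20 : ℝ)) * (ε * u) < |4 * zv z ^ 2 - u ^ 2 - 1 - 2 * (ε * u)|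

/-- N1: number theory, contradiction -/
def ST_N1 : Prop := ∃ ε0 : ℝ, 0 < ε0 ∧ ∀ ε : ℝ, 0 < ε → ε ≤ ε0 → ArithOK ε → ∀ y z : ℤ × ℤ,
  ¬ (∀ u t α : ℝ, u = 1 + 2 * zv y → t = ε * u → α = zv z →
  5 / 2 ≤ u ∧ 0 < α ∧ t ≤ 207 / 1000 ∧ |(zn (1 + 2 * y.1, 2 * y.2) : ℝ) - 1| ≤ 1025 / 10 * t + 1 / 1000 ∧
  (20 * ε ^ (-(1 / 3) : ℝ) ≤ u → ε * |2 * zc z - (1 + 2 * zc y)| ≤ 1001 / 4000 ∧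
    183 / 100 * t ≤ 2 * u * (2 * α - u) - 1 ∧ 2 * u * (2 * α - u) - 1 ≤ 216 / 100 * t) ∧
  (15 ≤ u → u < 20 * ε ^ (-(1 / 3) : ℝ) → 78 / 10 * ε * |zc z| ≤ 1 ∧
    |4 * α ^ 2 - u ^ 2 - 1 - 2 * t| ≤ (14 / 10 * u ^ (-(2 / 3) : ℝ) + 100 / u ^ 2 + ε ^ (1 / 20 : ℝ)) * t))

/-- N2: there are intervals of good ε near 0 -/
def ST_N2 : Prop := ∀ δ : ℝ, 0 < δ → ∃ a b : ℝ, 0 < a ∧ a < b ∧ b < δ ∧ ∀ ε ∈ Ioo a b, ArithOK ε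

/-- R18: case I -/
def ST_R18 : Prop := ∀ cK : ℝ, 1 ≤ cK → ∃ ε0 : ℝ, 0 < ε0 ∧ ∀ (ε Hm Hp : ℝ) (C : Set ℝ) (cd : CD Hm Hp C), Par ε Hm Hp → ε ≤ ε0 →
  ArithOK ε → ∀ (τ0 l r l0 r0 l1 r1 l2 r2 k0 s0 k1 s1 k2 s2 : ℝ) (V0 : Gap cd),
  C1 cd ε cK τ0 l r l0 r0 l1 r1 l2 r2 k0 s0 k1 s1 k2 s2 V0 →
  PSt C ε k0 s0 ∨ PSt C ε k1 s1 ∨ PSt C ε k2 s2

/-- R19: descent -/
def ST_R19 : Prop := ∀ cK : ℝ, 1 ≤ cK → ∃ ε0 : ℝ, 0 < ε0 ∧ ∀ (ε Hm Hp : ℝ) (C : Set ℝ) (cd : CD Hm Hp C), Par ε Hm Hp → ε ≤ ε0 →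
  ArithOK ε → ∀ (K : Set ℝ) (ι : Type) (lo hi t : ι → ℝ) (g : Fin 3 → ι → ι), IsKD ε cK K lo hi t g →
  ∀ j : ι, Good cd ε (lo j) (hi j) → PSt C ε (lo j) (hi j) →
  ∃ i : Fin 3, PSt C ε (lo (g i j)) (hi (g i j)) ∨ ∃ i' : Fin 3, PSt C ε (lo (g i' (g i j))) (hi (g i' (g i j)))

/-- R20: initial states -/
def ST_R20 : Prop := ∃ ε0 : ℝ, 0 < ε0 ∧ ∀ (ε Hm Hp : ℝ) (C : Set ℝ) (cd : CD Hm Hp C), Par ε Hm Hp → ε ≤ ε0 →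
  ∀ c0 ∈ C, ∀ η : ℝ, 0 < η → ∃ y : ℝ, |y - c0| < η ∧ ∃ ρ0 : ℝ, 0 < ρ0 ∧ ∀ l r : ℝ, l < r → r - l ≤ ρ0 →
    |(l + r) / 2 - y| ≤ (r - l) / 100 → Good cd ε l r ∧ PSt C ε l r

/-- R21: regular closedness of the sum -/
def ST_R21 : Prop := ∀ cK : ℝ, 1 ≤ cK → ∃ ε0 : ℝ, 0 < ε0 ∧ ∀ (ε Hm Hp : ℝ) (C : Set ℝ) (cd : CD Hm Hp C), Par ε Hm Hp → ε ≤ ε0 →
  ArithOK ε → ∀ (K : Set ℝ) (ι : Type) (lo hi t : ι → ℝ) (g : Fin 3 → ι → ι), IsKD ε cK K lo hi t g → IsClosed C → IsClosed K →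
  C + K ⊆ closure (interior (C + K))

end

end Pool.Agent.Helper36.CV
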