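import Pool.Agent.Helper36.CV.StmtsD

set_option autoImplicit false

namespace Pool.Agent.Helper36.CV

open Complex Filter Topology

noncomputable section

def XC (l : ℝ) : ℕ → ℂ → ℂ
  | 0, _ => 1
  | 1, z => z / 2
  | 2, z => (z - l) / 2
  | (n + 3), z => 2 * XC l (n + 2) z * XC l (n + 1) z - XC l n z

def ST_W1 : Prop := ∀ l : ℝ, 0 < |l| → |l| ≤ 1 / 100 → ∀ n, 1 ≤ n →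
  (∀ x : ℝ, XC l n x = X l n x) ∧
  ∀ z : ℂ, z.im ≠ 0 → ∀ c : ℝ, |c| ≤ 1 → XC l n z ≠ c

def ST_W2 : Prop := ∀ l : ℝ, 0 < |l| → |l| ≤ 1 / 100 → ∀ n, 1 ≤ n → ∃ f : ℂ → ℂ,
  ContinuousOn f {z | 0 ≤ z.im} ∧ DifferentiableOn ℂ f {z | 0 < z.im} ∧
  (∀ z : ℂ, 0 < z.im → 0 < (f z).im) ∧
  (∀ x : ℝ, f x = ((1 - Th l n x / (Real.pi * Nat.fib n) : ℝ) : ℂ) +
    ((tau l n x / (Real.pi * Nat.fib n) : ℝ) : ℂ) * I) ∧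
  Tendsto (fun z : ℂ => f z - I / Real.pi * Complex.log z) (cocompact ℂ ⊓ 𝓟 {z | 0 ≤ z.im}) (𝓝 1)

def ST_W3 : Prop := ∀ (h : ℂ → ℂ) (e : ℝ), 0 ≤ e → ContinuousOn h {z | 0 ≤ z.im} →
  DifferentiableOn ℂ h {z | 0 < z.im} → (∀ x : ℝ, ‖h x‖ ≤ e) →
  Tendsto h (cocompact ℂ ⊓ 𝓟 {z | 0 ≤ z.im}) (𝓝 0) → ∀ z : ℂ, 0 ≤ z.im → ‖h z‖ ≤ e

def ST_W4 : Prop := ∀ l : ℝ, 0 < |l| → |l| ≤ 1 / 100 → ∃ f : ℂ → ℂ,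
  ContinuousOn f {z | 0 ≤ z.im} ∧ DifferentiableOn ℂ f {z | 0 < z.im} ∧
  (∀ z : ℂ, 0 < z.im → 0 < (f z).im) ∧
  (∀ x : ℝ, f x = ((1 - Om l x / Real.pi : ℝ) : ℂ) + ((Ly l x / Real.pi : ℝ) : ℂ) * I) ∧
  ∃ A : ℝ, ∀ z : ℂ, 0 ≤ z.im → ‖f z‖ ≤ A + Real.log (1 + ‖z‖)

def ST_W5 : Prop := ∃ l0 : ℝ, 0 < l0 ∧ ∀ l : ℝ, 0 < |l| → |l| ≤ l0 →
  Nonempty (CD (|l| / (2 * Real.pi ^ 2) * (1 - 12 * |l|)) (|l| / (2 * Real.pi ^ 2) * (1 + 12 * |l|)) (Cs l))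

end

end Pool.Agent.Helper36.CV
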