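import Pool.Agent.Helper36.CV.Fin
import Pool.Agent.Helper11.CV.D3
import Pool.Agent.Helper11.CV.K10
import Pool.Agent.Helper12.CV.D4
import Pool.Agent.Helper13.CV.E1
import Pool.Agent.Helper13.CV.E11
import Pool.Agent.Helper15.CV.E12
import Pool.Agent.Helper17.CV.T4
import Pool.Agent.Helper17.CV.T6
import Pool.Agent.Helper17.CV.W4
import Pool.Agent.Helper20.CV.O7
import Pool.Agent.Helper24.CV.D5
import Pool.Agent.Helper24.CV.O3b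
import Pool.Agent.Helper25.CV.L3
import Pool.Agent.Helper26.CV.D3s
import Pool.Agent.Helper26.CV.O3a
import Pool.Agent.Helper3.CV.D6
import Pool.Agent.Helper30.CV.G1
import Pool.Agent.Helper30.CV.Q4
import Pool.Agent.Helper30.CV.R19
import Pool.Agent.Helper31.CV.E13
import Pool.Agent.Helper31.CV.MR
import Pool.Agent.Helper31.CV.N0
import Pool.Agent.Helper31.CV.Q1
import Pool.Agent.Helper31.CV.R0
import Pool.Agent.Helper31.CV.R13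
import Pool.Agent.Helper31.CV.R18
import Pool.Agent.Helper31.CV.R4
import Pool.Agent.Helper31.CV.R6
import Pool.Agent.Helper32.CV.K3
import Pool.Agent.Helper33.CV.E9
import Pool.Agent.Helper33.CV.G2
import Pool.Agent.Helper35.CV.K1
import Pool.Agent.Helper37.CV.E3
import Pool.Agent.Helper37.CV.Q7
import Pool.Agent.Helper38.CV.D9
import Pool.Agent.Helper38.CV.K2
import Pool.Agent.Helper38.CV.R11
import Pool.Agent.Helper38.CV.R17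
import Pool.Agent.Helper39.CV.P4
import Pool.Agent.Helper39.CV.P5
import Pool.Agent.Helper39.CV.Q5
import Pool.Agent.Helper39.CV.Q6
import Pool.Agent.Helper39.CV.Q8
import Pool.Agent.Helper41.CV.O9
import Pool.Agent.Helper41.CV.O9b
import Pool.Agent.Helper44.CV.K8
import Pool.Agent.Helper45.CV.E6
import Pool.Agent.Helper45.CV.P1
import Pool.Agent.Helper45.CV.Q11
import Pool.Agent.Helper45.CV.T8
import Pool.Agent.Helper46.CV.D11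
import Pool.Agent.Helper46.CV.D12
import Pool.Agent.Helper47.CV.E7
import Pool.Agent.Helper48.CV.E2
import Pool.Agent.Helper48.CV.Q3
import Pool.Agent.Helper48.CV.Q9
import Pool.Agent.Helper50.CV.E10
import Pool.Agent.Helper50.CV.K4
import Pool.Agent.Helper51.CV.R10
import Pool.Agent.Helper52.CV.OF
import Pool.Agent.Helper52.CV.R9
import Pool.Agent.Helper53.CV.R21
import Pool.Agent.Helper53.CV.T11
import Pool.Agent.Helper53.CV.W1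
import Pool.Agent.Helper55.CV.F2
import Pool.Agent.Helper55.CV.K6
import Pool.Agent.Helper55.CV.W2
import Pool.Agent.Helper57.CV.D13
import Pool.Agent.Helper57.CV.K0
import Pool.Agent.Helper57.CV.Q2
import Pool.Agent.Helper57.CV.R5
import Pool.Agent.Helper58.CV.O8
import Pool.Agent.Helper59.CV.A1
import Pool.Agent.Helper59.CV.O10
import Pool.Agent.Helper59.CV.R7
import Pool.Agent.Helper63.CV.E5
import Pool.Agent.Helper63.CV.O6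
import Pool.Agent.Helper67.CV.O5
import Pool.Agent.Helper68.CV.N1
import Pool.Agent.Helper68.CV.T12
import Pool.Agent.Helper7.CV.K5
import Pool.Agent.Helper7.CV.T10
import Pool.Agent.Helper71.CV.D8
import Pool.Agent.Helper71.CV.F1
import Pool.Agent.Helper72.CV.A3
import Pool.Agent.Helper72.CV.A4
import Pool.Agent.Helper72.CV.R12
import Pool.Agent.Helper74.CV.D10
import Pool.Agent.Helper74.CV.D2
import Pool.Agent.Helper74.CV.D3ab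
import Pool.Agent.Helper74.CV.D7
import Pool.Agent.Helper74.CV.F3
import Pool.Agent.Helper74.CV.G3
import Pool.Agent.Helper74.CV.W3
import Pool.Agent.Helper75.CV.E8
import Pool.Agent.Helper78.CV.R20
import Pool.Agent.Helper8.CV.O11
import Pool.Agent.Helper8.CV.O4
import Pool.Agent.Helper8.CV.P2
import Pool.Agent.Helper8.CV.P3
import Pool.Agent.Helper8.CV.R15
import Pool.Agent.Helper8.CV.R16
import Pool.Agent.Helper80.CV.E4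
import Pool.Agent.Helper80.CV.R8
import Pool.Agent.Helper81.CV.L4
import Pool.Agent.Helper82.CV.A2
import Pool.Agent.Helper85.CV.N2
import Pool.Agent.Helper85.CV.R3
import Pool.Agent.Helper85.CV.T9
import Pool.Agent.Helper89.CV.K7
import Pool.Agent.Helper90.CV.L1
import Pool.Agent.Helper90.CV.L2
import Pool.Agent.Helper90.CV.R1
import Pool.Agent.Helper90.CV.R2
import Pool.Agent.Helper91.CV.K11
import Pool.Agent.Helper91.CV.R14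
import Pool.Agent.Helper91.CV.T1
import Pool.Agent.Helper91.CV.T7
import Pool.Agent.Helper92.CV.E14
import Pool.Agent.Helper95.CV.O1
import Pool.Agent.Helper95.CV.Q10
import Pool.Agent.Helper96.CV.K9
import Pool.Agent.Helper96.CV.T3
import Pool.Agent.Helper97.CV.W5
import Pool.Agent.Helper99.CV.O2

set_option autoImplicit false

namespace Pool.Agent.Helper36.CV.All

open Pool.Agent.Helper36.CV

theorem t_A1 : ST_A1 := Pool.Agent.Helper36.CV.st_A1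
theorem t_A2 : ST_A2 := Pool.Agent.Helper36.CV.st_A2 t_A1
theorem t_A3 : ST_A3 := Pool.Agent.Helper72.CV.A3.st_A3
theorem t_A4 : ST_A4 := Pool.Agent.Helper72.CV.A4.st_A4
theorem t_D1 : ST_D1 := Pool.Agent.Helper36.CV.st_D1
theorem t_T1 : ST_T1 := Pool.Agent.Helper36.CV.st_T1
theorem t_T2 : ST_T2 := Pool.Agent.Helper36.CV.st_T2
theorem t_T4 : ST_T4 := Pool.Agent.Helper36.CV.st_T4 t_T2
theorem t_T3 : ST_T3 := Pool.Agent.Helper36.CV.st_T3 t_T2 t_T4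
theorem t_T7 : ST_T7 := Pool.Agent.Helper36.CV.st_T7 t_T1 t_T3
theorem t_T8 : ST_T8 := Pool.Agent.Helper36.CV.st_T8 t_T1 t_T7
theorem t_T11 : ST_T11 := Pool.Agent.Helper36.CV.st_T11 t_T1 t_T8
theorem t_D10 : ST_D10 := Pool.Agent.Helper36.CV.st_D10 t_T11
theorem t_D5 : ST_D5 := Pool.Agent.Helper36.CV.st_D5
theorem t_D6 : ST_D6 := Pool.Agent.Helper36.CV.st_D6 t_T1
theorem t_D7 : ST_D7 := Pool.Agent.Helper36.CV.st_D7 t_T1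
theorem t_T5 : ST_T5 := Pool.Agent.Helper36.CV.st_T5
theorem t_T6 : ST_T6 := Pool.Agent.Helper36.CV.st_T6 t_T1 t_T3 t_T5
theorem t_D11 : ST_D11 := Pool.Agent.Helper36.CV.st_D11 t_D5 t_D6 t_D7 t_D10 t_T1 t_T6 t_T8
theorem t_D2 : ST_D2 := Pool.Agent.Helper36.CV.st_D2 t_T1 t_T4 t_T5 t_T6
theorem t_D3a : ST_D3a := Pool.Agent.Helper36.CV.st_D3a
theorem t_D3b : ST_D3b := Pool.Agent.Helper36.CV.st_D3b t_D3a
theorem t_D3s : ST_D3s := Pool.Agent.Helper36.CV.st_D3s t_D3a t_D3b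
theorem t_D3 : ST_D3 := Pool.Agent.Helper36.CV.st_D3 t_D1 t_D2 t_D3s t_T6
theorem t_D4 : ST_D4 := Pool.Agent.Helper36.CV.st_D4 t_D1 t_D2 t_D3 t_T6
theorem t_D8 : ST_D8 := Pool.Agent.Helper36.CV.st_D8 t_D1 t_D2 t_D3 t_D5 t_T6
theorem t_D9 : ST_D9 := Pool.Agent.Helper36.CV.st_D9 t_D6 t_D7
theorem t_D12 : ST_D12 := Pool.Agent.Helper36.CV.st_D12 t_D1 t_D3 t_D4 t_D5 t_D7 t_D8 t_D9 t_D10 t_D11 t_T6
theorem t_T9 : ST_T9 := Pool.Agent.Helper36.CV.st_T9 t_T7 t_T8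
theorem t_T10 : ST_T10 := Pool.Agent.Helper36.CV.st_T10 t_T6 t_T9
theorem t_T12 : ST_T12 := Pool.Agent.Helper36.CV.st_T12 t_T6 t_T8 t_T9 t_T10 t_T11
theorem t_D13 : ST_D13 := Pool.Agent.Helper36.CV.st_D13 t_D1 t_D2 t_D3 t_D5 t_D6 t_D7 t_D11 t_T6 t_T9 t_T12
theorem t_P1 : ST_P1 := Pool.Agent.Helper36.CV.st_P1 t_A1
theorem t_P3 : ST_P3 := Pool.Agent.Helper8.CV.P3.st_P3 t_A3 t_P1
theorem t_P2 : ST_P2 := Pool.Agent.Helper8.CV.P2.st_P2 t_P3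
theorem t_E1 : ST_E1 := Pool.Agent.Helper36.CV.st_E1 t_P2
theorem t_E2 : ST_E2 := Pool.Agent.Helper48.CV.E2.st_E2 t_A2 t_P1 t_P2 t_E1
theorem t_Q1 : ST_Q1 := Pool.Agent.Helper31.CV.Q1.st_Q1 t_P1 t_P2 t_P3
theorem t_Q2 : ST_Q2 := Pool.Agent.Helper57.CV.Q2.st_Q2 t_P1 t_P2 t_Q1
theorem t_E3 : ST_E3 := Pool.Agent.Helper37.CV.E3.st_E3 t_P1 t_P2 t_Q2 t_E1 t_E2
theorem t_E4 : ST_E4 := Pool.Agent.Helper80.CVE4.st_E4 t_A3 t_A4 t_P3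
theorem t_E5 : ST_E5 := Pool.Agent.Helper63.CV.st_E5 t_P1 t_P2 t_E1 t_E2 t_E3 t_E4
theorem t_Q3 : ST_Q3 := Pool.Agent.Helper48.CV.Q3.st_Q3 t_A2 t_P1 t_P2 t_P3
theorem t_Q4 : ST_Q4 := Pool.Agent.Helper30.CV.Q4.st_Q4 t_A1 t_P1 t_P2 t_P3
theorem t_Q6 : ST_Q6 := Pool.Agent.Helper39.CV.Q6 t_P1 t_P2 t_P3 t_Q2 t_Q3 t_Q4
theorem t_Q5 : ST_Q5 := Pool.Agent.Helper39.CV.Q5 t_P1 t_P2 t_Q2 t_Q3 t_Q4
theorem t_E6 : ST_E6 := Pool.Agent.Helper36.CV.st_E6 t_P2 t_P3 t_Q2 t_Q3 t_Q4 t_Q5 t_Q6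
theorem t_E7 : ST_E7 := Pool.Agent.Helper36.CV.st_E7 t_P1 t_P2 t_P3 t_Q3 t_Q4 t_Q6 t_E1 t_E6
theorem t_N0 : ST_N0 := Pool.Agent.Helper31.CV.N0.st_N0
theorem t_E8 : ST_E8 := Pool.Agent.Helper75.CV.E8.st_E8 t_P1 t_P2 t_P3 t_Q2 t_Q3 t_Q4 t_Q6 t_E3 t_E6 t_N0
theorem t_E9 : ST_E9 := Pool.Agent.Helper33.CV.E9.st_E9
theorem t_E10 : ST_E10 := Pool.Agent.Helper50.CV.E10.st_E10 t_P2 t_E5 t_E7 t_E8 t_E9
theorem t_E11 : ST_E11 := Pool.Agent.Helper36.CV.st_E11 t_E1 t_E10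
theorem t_K1 : ST_K1 := Pool.Agent.Helper36.CV.st_K1
theorem t_K2 : ST_K2 := Pool.Agent.Helper38.CV.k2
theorem t_K3 : ST_K3 := Pool.Agent.Helper36.CV.st_K3
theorem t_K4 : ST_K4 := Pool.Agent.Helper36.CV.st_K4 t_K1 t_K2 t_K3
theorem t_K5 : ST_K5 := Pool.Agent.Helper36.CV.st_K5
theorem t_K6 : ST_K6 := Pool.Agent.Helper36.CV.st_K6
theorem t_K7 : ST_K7 := Pool.Agent.Helper36.CV.st_K7 t_K5
theorem t_K8 : ST_K8 := Pool.Agent.Helper36.CV.st_K8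
theorem t_K9 : ST_K9 := Pool.Agent.Helper96.CV.K9 t_K4 t_K5 t_K6 t_K7 t_K8
theorem t_G1 : ST_G1 := Pool.Agent.Helper36.CV.st_G1
theorem t_K0 : ST_K0 := Pool.Agent.Helper36.CV.st_K0
theorem t_K10 : ST_K10 := Pool.Agent.Helper36.CV.st_K10 t_K0
theorem t_K11 : ST_K11 := Pool.Agent.Helper36.CV.st_K11 t_K0
theorem t_G2 : ST_G2 := Pool.Agent.Helper36.CV.st_G2 t_K10 t_K11
theorem t_G3 : ST_G3 := Pool.Agent.Helper74.CV.G3
theorem t_O1 : ST_O1 := Pool.Agent.Helper36.CV.st_O1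
theorem t_O4 : ST_O4 := Pool.Agent.Helper36.CV.O4
theorem t_O6 : ST_O6 := Pool.Agent.Helper36.CV.st_O6
theorem t_O5 : ST_O5 := Pool.Agent.Helper36.CV.st_O5 t_O6
theorem t_O7 : ST_O7 := Pool.Agent.Helper36.CV.st_O7
theorem t_O8 : ST_O8 := Pool.Agent.Helper36.CV.st_O8
theorem t_O9b : ST_O9b := Pool.Agent.Helper36.CV.st_O9b t_O4 t_O5 t_O6 t_O7 t_O8
theorem t_O10 : ST_O10 := Pool.Agent.Helper59.CV.O10
theorem t_O11 : ST_O11 := Pool.Agent.Helper36.CV.O11 t_O1 t_O9b t_O10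
theorem t_E12 : ST_E12 := Pool.Agent.Helper36.CV.st_E12 t_K9 t_G1 t_G2 t_G3 t_O11
theorem t_N2 : ST_N2 := Pool.Agent.Helper36.CV.st_N2 t_N0
theorem t_E13 : ST_E13 := Pool.Agent.Helper31.CV.E13.st_E13 t_N2
theorem t_R0 : ST_R0 := Pool.Agent.Helper31.CV.R0.st_R0
theorem t_R1 : ST_R1 := Pool.Agent.Helper90.CV.R1.st_R1 t_R0
theorem t_P4 : ST_P4 := Pool.Agent.Helper39.CV.P4 t_A4
theorem t_Q8 : ST_Q8 := Pool.Agent.Helper39.CV.Q8 t_P1 t_P2 t_Q1 t_Q2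
theorem t_Q11 : ST_Q11 := Pool.Agent.Helper36.CV.st_Q11 t_P1 t_P2 t_P3 t_P4 t_Q8
theorem t_MR : ST_MR := Pool.Agent.Helper31.CV.MR.st_MR
theorem t_P5 : ST_P5 := Pool.Agent.Helper39.CV.P5 t_A3 t_P3
theorem t_Q7 : ST_Q7 := Pool.Agent.Helper37.CV.Q7.st_Q7 t_P1 t_P2 t_P3 t_P5 t_MR t_Q3 t_Q4
theorem t_R2 : ST_R2 := Pool.Agent.Helper90.CV.R2.st_R2 t_P1 t_P2 t_P3 t_Q4 t_R0
theorem t_R3 : ST_R3 := Pool.Agent.Helper36.CV.st_R3 t_P1 t_P2 t_Q4 t_Q7 t_Q8 t_R0 t_R2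
theorem t_Q9 : ST_Q9 := Pool.Agent.Helper48.CV.Q9.st_Q9 t_P1 t_P2 t_Q3 t_Q4 t_Q5
theorem t_Q10 : ST_Q10 := Pool.Agent.Helper95.CV.Q10.st_Q10 t_P1 t_P2 t_P3 t_P4 t_P5 t_Q3 t_Q4 t_Q8 t_Q9
theorem t_R4 : ST_R4 := Pool.Agent.Helper31.CV.R4.st_R4 t_P1 t_P3 t_Q6 t_Q8
theorem t_R6 : ST_R6 := Pool.Agent.Helper31.CV.R6.st_R6 t_P1 t_Q4 t_R3
theorem t_L1 : ST_L1 := Pool.Agent.Helper90.CV.L1.st_L1
theorem t_L2 : ST_L2 := Pool.Agent.Helper90.CV.L2.st_L2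
theorem t_R7 : ST_R7 := Pool.Agent.Helper36.CV.st_R7 t_P1 t_P2 t_Q4 t_Q10 t_R0 t_R2 t_R3 t_R4 t_R6 t_L1 t_L2 t_N0
theorem t_R8 : ST_R8 := Pool.Agent.Helper80.CV.R8.st_R8 t_P2 t_Q10 t_R3 t_R6
theorem t_R5 : ST_R5 := Pool.Agent.Helper57.CV.R5.st_R5 t_P1 t_P2 t_P3 t_Q2 t_Q6 t_Q8
theorem t_R9 : ST_R9 := Pool.Agent.Helper52.CV.R9.st_R9 t_P1 t_Q4 t_Q8 t_R0 t_R2 t_R3 t_R4 t_R5 t_N0
theorem t_R10 : ST_R10 := Pool.Agent.Helper36.CV.st_R10 t_P1 t_P2 t_Q11 t_MR t_R0 t_R3 t_R7 t_R8 t_R9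
theorem t_R11 : ST_R11 := Pool.Agent.Helper38.CV.R11.st_R11 t_P1 t_P3 t_Q4 t_R0
theorem t_R12 : ST_R12 := Pool.Agent.Helper72.CV.R12.st_R12 t_P1 t_P2 t_Q1 t_Q4 t_Q7 t_R0 t_R3 t_R7 t_R11 t_MR
theorem t_R13 : ST_R13 := Pool.Agent.Helper31.CV.R13.st_R13 t_Q10 t_R3 t_R6 t_R11 t_R12
theorem t_L3 : ST_L3 := Pool.Agent.Helper25.CV.L3.st_L3
theorem t_R14 : ST_R14 := Pool.Agent.Helper36.CV.st_R14 t_R0 t_R2 t_R3 t_R4 t_R11 t_L2 t_L3 t_N0 t_Q4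
theorem t_R15 : ST_R15 := Pool.Agent.Helper8.CV.R15.st_R15 t_P1 t_Q4 t_R0 t_R2 t_R3 t_N0 t_L1 t_L2 t_P3 t_R11 t_R14
theorem t_L4 : ST_L4 := Pool.Agent.Helper81.CV.L4.st_L4
theorem t_R16 : ST_R16 := Pool.Agent.Helper8.CV.R16.st_R16 t_P1 t_Q4 t_Q8 t_R0 t_R2 t_R3 t_R4 t_N0 t_L4 t_R11 t_R14 t_R15
theorem t_R17 : ST_R17 := Pool.Agent.Helper38.CV.R17.st_R17 t_P1 t_P2 t_R0 t_R2 t_R3 t_R4 t_R5 t_R11 t_R14 t_R15 t_R16 t_N0
theorem t_N1 : ST_N1 := Pool.Agent.Helper68.CV.N1.st_N1 t_N0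
theorem t_R18 : ST_R18 := Pool.Agent.Helper31.CV.R18.st_R18 t_P2 t_R13 t_R17 t_N1
theorem t_R19 : ST_R19 := Pool.Agent.Helper30.CV.R19.st_R19 t_P2 t_R0 t_R1 t_R10 t_R18 t_MR
theorem t_R20 : ST_R20 := Pool.Agent.Helper78.CV.R20.st_R20 t_P1 t_P2 t_P3 t_Q3 t_R0
theorem t_R21 : ST_R21 := Pool.Agent.Helper53.CV.R21.st_R21 t_P2 t_R19 t_R20
theorem t_W1 : ST_W1 := Pool.Agent.Helper36.CV.st_W1 t_T6 t_T9
theorem t_W2 : ST_W2 := Pool.Agent.Helper36.CV.st_W2 t_W1 t_T6 t_T9 t_T10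
theorem t_W3 : ST_W3 := Pool.Agent.Helper36.CV.st_W3
theorem t_W4 : ST_W4 := Pool.Agent.Helper36.CV.st_W4 t_W2 t_W3 t_T12
theorem t_W5 : ST_W5 := Pool.Agent.Helper36.CV.st_W5 t_T12 t_D12 t_D13 t_W4
theorem t_F2 : ST_F2 := Pool.Agent.Helper36.CV.st_F2
theorem t_E14 : ST_E14 := Pool.Agent.Helper36.CV.st_E14 t_E11 t_E12 t_E13 t_R21 t_W5 t_F2 t_O11
theorem t_F1 : ST_F1 := Pool.Agent.Helper36.CV.st_F1
theorem t_F3 : ST_F3 := Pool.Agent.Helper74.CV.F3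
theorem t_O2 : ST_O2 := Pool.Agent.Helper36.CV.st_O2
theorem t_O3a : ST_O3a := Pool.Agent.Helper36.CV.st_O3a t_O10
theorem t_O3b : ST_O3b := Pool.Agent.Helper36.CV.st_O3b
theorem t_O9 : ST_O9 := Pool.Agent.Helper36.CV.st_O9 t_O4 t_O5 t_O6
theorem t_OF : ST_OF := Pool.Agent.Helper36.CV.st_OF t_O1 t_O2 t_O3a t_O3b t_O9 t_O9b t_O10

end Pool.Agent.Helper36.CV.All
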