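import Mathlib

set_option autoImplicit false

namespace Pool.Agent.Helper36.CV

noncomputable section

def gam : ℝ := (Real.sqrt 5 - 1) / 2

def phi : ℝ := (Real.sqrt 5 + 1) / 2

def X (l : ℝ) : ℕ → ℝ → ℝ
  | 0, _ => 1
  | 1, E => E / 2
  | 2, E => (E - l) / 2
  | (n + 3), E => 2 * X l (n + 2) E * X l (n + 1) E - X l n E

def Cs (l : ℝ) : Set ℝ := {E | ∀ n, |X l n E| ≤ 1 ∨ |X l (n + 1) E| ≤ 1}

def M (l E : ℝ) : ℕ → Matrix (Fin 2) (Fin 2) ℝ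
  | 0 => !![1, -l; 0, 1]
  | 1 => !![E, -1; 1, 0]
  | (n + 2) => M l E n * M l E (n + 1)

def clamp (x : ℝ) : ℝ := max (-1) (min 1 x)

def hx (A : Matrix (Fin 2) (Fin 2) ℝ) : ℝ := A.trace / 2

def ph (A : Matrix (Fin 2) (Fin 2) ℝ) : ℂ :=
  (clamp (hx A) : ℂ) +
    ((((SignType.sign (A 1 0) : SignType) : ℝ) * Real.sqrt (1 - clamp (hx A) ^ 2) : ℝ) : ℂ) * Complex.I

def frick (A B : Matrix (Fin 2) (Fin 2) ℝ) : ℝ :=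
  hx A ^ 2 + hx B ^ 2 + hx (A * B) ^ 2 - 2 * hx A * hx B * hx (A * B) - 1

def D (l : ℝ) (n : ℕ) (E : ℝ) : ℝ :=
  Complex.arg (ph (M l E (n + 2)) * (starRingEnd ℂ) (ph (M l E n) * ph (M l E (n + 1))))

def Th (l : ℝ) : ℕ → ℝ → ℝ
  | 0, _ => 0
  | 1, E => Real.arccos (E / 2)
  | (n + 2), E => Th l (n + 1) E + Th l n E + D l n E

def tau (l : ℝ) (n : ℕ) (E : ℝ) : ℝ := Real.arcosh (max 1 |X l n E|)

def pp (a b : ℤ) : ℕ → ℤ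
  | 0 => b
  | 1 => a
  | (n + 2) => pp a b (n + 1) + pp a b n

def rr (l : ℝ) (a b : ℤ) (n : ℕ) (E : ℝ) : ℝ := Th l n E / Real.pi - (pp a b n : ℝ)

def aa (l : ℝ) (a b : ℤ) (n : ℕ) (E : ℝ) : ℝ := rr l a b (n + 1) E + gam * rr l a b n E

def bb (l : ℝ) (a b : ℤ) (n : ℕ) (E : ℝ) : ℝ := rr l a b (n + 1) E - phi * rr l a b n E

def Om (l E : ℝ) : ℝ := Th l 1 E + ∑' i : ℕ, gam ^ (i + 1) * D l i E

def Ly (l E : ℝ) : ℝ :=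
  tau l 1 E + ∑' i : ℕ, gam ^ (i + 1) * (tau l (i + 2) E - tau l (i + 1) E - tau l i E)

structure CD (Hm Hp : ℝ) (C : Set ℝ) where
  f : ℂ → ℂ
  cont : ContinuousOn f {z | 0 ≤ z.im}
  ana : DifferentiableOn ℂ f {z | 0 < z.im}
  im_pos : ∀ z : ℂ, 0 < z.im → 0 < (f z).im
  im_nonneg : ∀ x : ℝ, 0 ≤ (f x).im
  re_mono : ∀ x y : ℝ, x ≤ y → (f x).re ≤ (f y).re
  re_ends : ∃ R : ℝ, (∀ x : ℝ, x ≤ -R → (f x).re = 0) ∧ (∀ x : ℝ, R ≤ x → (f x).re = 1)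
  growth : ∃ A : ℝ, ∀ z : ℂ, 0 ≤ z.im → ‖f z‖ ≤ A + Real.log (1 + ‖z‖)
  zero : ∀ x : ℝ, (f x).im = 0 ↔ x ∈ C
  lab : ∀ x : ℝ, 0 < (f x).im → ∃ m n : ℤ, (f x).re = n + m * gam ∧ |(m : ℝ)| * (f x).im ≤ Hp
  ex : ∀ m n : ℤ, m ≠ 0 → 0 < (n : ℝ) + m * gam → (n : ℝ) + m * gam < 1 →
    ∃ x : ℝ, (f x).re = n + m * gam ∧ Hm ≤ |(m : ℝ)| * (f x).im

end

end Pool.Agent.Helper36.CV
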