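import Pool.Agent.Helper36.CV.StmtsE

set_option autoImplicit false

open Pointwise

namespace Pool.Agent.Helper36.CV

theorem fin_S15813 (hOF : ST_OF) (hF1 : ST_F1) (hO11 : ST_O11) (h14 : ST_E14) :
    ∃ l1 l2 : ℝ, ∃ T : lp (fun _ : ℤ × ℤ => ℂ) 2 →L[ℂ] lp (fun _ : ℤ × ℤ => ℂ) 2,
      (∀ ψ : lp (fun _ : ℤ × ℤ => ℂ) 2, ∀ p : ℤ × ℤ,
        T ψ p = ψ (p.1 + 1, p.2) + ψ (p.1 - 1, p.2) + ψ (p.1, p.2 + 1) + ψ (p.1, p.2 - 1)
          + ((((Set.Ico (1 - (Real.sqrt 5 - 1) / 2) 1).indicator (fun _ => l1)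
                (Int.fract ((p.1 : ℝ) * ((Real.sqrt 5 - 1) / 2)))
              + (Set.Ico (1 - (Real.sqrt 5 - 1) / 2) 1).indicator (fun _ => l2)
                (Int.fract ((p.2 : ℝ) * ((Real.sqrt 5 - 1) / 2)))) : ℝ) : ℂ) * ψ p) ∧
      ∃ S : Set ℝ, S = {x : ℝ | (x : ℂ) ∈ spectrum ℂ T} ∧
        S.Nonempty ∧ IsCompact S ∧ closure (interior S) = S ∧
        ∀ x ∈ S, ¬ (connectedComponentIn S x).Subsingleton →
          ∀ e ∈ ({sInf (connectedComponentIn S x), sSup (connectedComponentIn S x)} : Set ℝ),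
            ∀ ε > 0, ∃ y ∈ S, connectedComponentIn S y = {y} ∧ |y - e| < ε := by
  obtain ⟨l1, l2, h1, h2, h3⟩ := h14
  obtain ⟨T, hT, hS⟩ := hOF l1 l2
  have hn : (Cs l1 + Cs l2).Nonempty := Set.Nonempty.add (hO11 l1).1 (hO11 l2).1
  have hc : IsCompact (Cs l1 + Cs l2) := (hO11 l1).2.add (hO11 l2).2
  exact ⟨l1, l2, T, hT, Cs l1 + Cs l2, hS.symm, hn, hc, h1, hF1 _ hn hc h1 h2 h3⟩

end Pool.Agent.Helper36.CV
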