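import Pool.Agent.Helper36.CV.StmtsT

set_option autoImplicit false

namespace Pool.Agent.Helper36.CV

open Complex

noncomputable section

/-- distance to the nearest integer -/
def dz (x : ℝ) : ℝ := |x - round x|

/-- weighted phase sum -/
def WS (l : ℝ) (n : ℕ) (E : ℝ) : ℝ :=
  (1 / Real.pi) * ∑ i ∈ Finset.range n, (gam ^ (i + 1) - (-phi) ^ (i + 1)) * D l i E

def tt (l : ℝ) (a b : ℤ) (n : ℕ) (E : ℝ) : ℝ := 1 - (-1) ^ (pp a b n).natAbs * X l n E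

def Pol (t : ℝ) : ℝ := t + t ^ 2 / 6 + 2 * t ^ 3 / 45

def yy (l : ℝ) (a b : ℤ) (n : ℕ) (E : ℝ) : ℝ := Pol (tt l a b n E)

def mP (l : ℝ) (a b : ℤ) (n : ℕ) (E : ℝ) : ℝ :=
  (yy l a b (n + 2) E + gam * yy l a b (n + 1) E - gam ^ 2 * yy l a b n E) / (5 * phi)

def mQ (l : ℝ) (a b : ℤ) (n : ℕ) (E : ℝ) : ℝ :=
  (phi ^ 2 * yy l a b n E + phi * yy l a b (n + 1) E - yy l a b (n + 2) E) / (5 * gam)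

def mR (l : ℝ) (a b : ℤ) (n : ℕ) (E : ℝ) : ℝ :=
  (yy l a b (n + 2) E - 3 * yy l a b (n + 1) E + yy l a b n E) / 5

def ee (l : ℝ) (a b : ℤ) (n : ℕ) (E : ℝ) : ℝ :=
  yy l a b (n + 3) E - 2 * yy l a b (n + 2) E - 2 * yy l a b (n + 1) E + yy l a b n E

def ST_D1 : Prop := ∀ (l E : ℝ) (a b : ℤ) (n : ℕ),
  aa l a b (n + 1) E = phi * aa l a b n E + D l n E / Real.pi ∧
  bb l a b (n + 1) E = -gam * bb l a b n E + D l n E / Real.pi ∧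
  Real.sqrt 5 * rr l a b n E = aa l a b n E - bb l a b n E ∧
  Real.sqrt 5 * rr l a b (n + 1) E = phi * aa l a b n E + gam * bb l a b n E ∧
  bb l a b n E = (-gam) ^ n * (Real.sqrt 5 * b + gam ^ n * aa l a b n E - WS l n E)

def ST_D2 : Prop := ∀ l : ℝ, 0 < |l| → |l| ≤ 1 / 100 → ∀ (n : ℕ) (E : ℝ),
  ∀ i j k : ℕ, ({i, j, k} : Finset ℕ) = {n, n + 1, n + 2} →
  |D l n E| * (|Real.sin (Th l i E)| - 51 / 100 * Real.sqrt |l|) ≤ 502 / 1000 * |l| ∧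
  |D l n E| * (|Real.sin (Th l i E)| - 51 / 100 * Real.sqrt |l|) *
    (8 * |Real.sin (Th l j E)| * |Real.sin (Th l k E)|) ≤ 101 / 100 * l ^ 2

def ST_D3a : Prop := ∀ x : ℝ, 1 / 2 ≤ |x| → gam / (Real.sqrt 5 * |x| + 193 / 100) ≤ max (dz x) (dz (gam * x))

def ST_D3b : Prop := ∃ t0 : ℝ, 0 < t0 ∧ ∀ (t x : ℝ) (L : ℕ), 0 < t → t ≤ t0 → 1 ≤ L →
  t * |x| ≤ 81 / 1000 → dz x < 2 * t → dz (gam ^ L * x) < 2 * t → 1 / 2 ≤ gam ^ L * |x| →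
  3 ≤ L ∧ 1 / (Nat.fib L : ℝ) - 2 * t ≤ dz (gam * x) ∧
  185 / 100 * |(round (gam ^ L * x) : ℝ)| ≤ dz (gam * (round x : ℝ)) * |x| ∧
  4 * |(round (gam ^ L * x) : ℝ)| ≤ |(round x : ℝ)|

/-- the summation lemma, for abstract sequences -/
def ST_D3s : Prop := ∃ t0 : ℝ, 0 < t0 ∧ ∀ (t : ℝ) (b : ℤ) (N : ℕ) (d S : ℕ → ℝ), 0 < t → t ≤ t0 → b ≠ 0 →
  Real.sqrt t ≤ |(b : ℝ)| * gam ^ N →
  (∀ j, 1 ≤ j → j ≤ N → 0 ≤ d j ∧ d j ≤ 101 / 100 * t) →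
  (∀ j, 1 ≤ j → j ≤ N → t * (|(b : ℝ)| * gam ^ j) < 1 / 20 → ∀ u v w : ℕ,
    ({u, v, w} : Finset ℕ) = {j - 1, j, j + 1} →
    d j * (S u - 51 / 100 * t) ≤ 502 / 1000 * t ^ 2 ∧
    d j * (S u - 51 / 100 * t) * (8 * S v * S w) ≤ 101 / 100 * t ^ 4 ∧ 0 ≤ S u ∧
    2 * (dz (gam ^ u * b) - 11 / 10 * t) ≤ S u) →
  ∑ j ∈ Finset.Icc 1 N, (1 + gam ^ (2 * j)) * d j / (|(b : ℝ)| * gam ^ j) ≤ 62 * t ^ 2 ∧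
  (|(b : ℝ)| ≤ 10 → ∑ j ∈ Finset.Icc 1 N, (1 + gam ^ (2 * j)) * d j / (|(b : ℝ)| * gam ^ j) ≤ 14 * t ^ 2)

def ST_D3 : Prop := ∃ l0 : ℝ, 0 < l0 ∧ ∀ (l E : ℝ) (a b : ℤ) (n : ℕ), 0 < |l| → |l| ≤ l0 → b ≠ 0 →
  Real.sqrt (Real.sqrt |l|) ≤ |(b : ℝ)| * gam ^ n → |aa l a b n E| ≤ 6 / 10 * Real.sqrt |l| →
  ∀ j, j ≤ n → |WS l j E| ≤ 9 * Real.sqrt 5 * |(b : ℝ)| * |l| ∧
    (|(b : ℝ)| ≤ 10 → |WS l j E| ≤ 2 * Real.sqrt 5 * |(b : ℝ)| * |l|)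

def ST_D4 : Prop := ∃ l0 : ℝ, 0 < l0 ∧ ∀ (l E : ℝ) (a b : ℤ) (n : ℕ), 0 < |l| → |l| ≤ l0 → b ≠ 0 →
  Real.sqrt (Real.sqrt |l|) ≤ |(b : ℝ)| * gam ^ n →
  |(b : ℝ)| * gam ^ n < phi * Real.sqrt (Real.sqrt |l|) →
  (∀ N, n ≤ N → |aa l a b N E| ≤ 6 / 10 * Real.sqrt |l|) →
  |aa l a b n E| ≤ 3 * (Real.sqrt |l| * Real.sqrt (Real.sqrt |l|))

def ST_D5 : Prop := (∀ x : ℝ, |x| ≤ 1 → |Pol (1 - Real.cos x) - x ^ 2 / 2| ≤ x ^ 8 / 100) ∧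
  (∀ x : ℝ, |x| ≤ 1 → |Pol (1 - Real.cosh x) + x ^ 2 / 2| ≤ x ^ 8 / 100) ∧ StrictMono Pol

def ST_D6 : Prop := ∀ (l E : ℝ) (a b : ℤ) (n : ℕ),
  tt l a b (n + 3) E + tt l a b n E =
    2 * (tt l a b (n + 1) E + tt l a b (n + 2) E - tt l a b (n + 1) E * tt l a b (n + 2) E) ∧
  tt l a b (n + 3) E * tt l a b n E = (tt l a b (n + 1) E - tt l a b (n + 2) E) ^ 2 - l ^ 2 / 4 ∧
  ∀ m : ℝ, m ≤ 1 / 10 → |l| ≤ 1 / 100 → |tt l a b (n + 1) E| ≤ m → |tt l a b (n + 2) E| ≤ m →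
    |ee l a b n E - l ^ 2 / 12| ≤ 4 * m ^ 4 + m * l ^ 2

def ST_D7 : Prop := ∀ (l E : ℝ) (a b : ℤ) (n : ℕ),
  yy l a b n E = mP l a b n E + mQ l a b n E + mR l a b n E ∧
  yy l a b (n + 1) E = phi ^ 2 * mP l a b n E + gam ^ 2 * mQ l a b n E - mR l a b n E ∧
  yy l a b (n + 2) E = phi ^ 4 * mP l a b n E + gam ^ 4 * mQ l a b n E + mR l a b n E ∧
  mP l a b (n + 1) E = phi ^ 2 * mP l a b n E + ee l a b n E / (5 * phi) ∧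
  mQ l a b (n + 1) E = gam ^ 2 * mQ l a b n E - ee l a b n E / (5 * gam) ∧
  mR l a b (n + 1) E = - mR l a b n E + ee l a b n E / 5 ∧
  ∀ m : ℝ, m ≤ 1 / 10 → |l| ≤ 1 / 100 → |yy l a b n E| ≤ m → |yy l a b (n + 1) E| ≤ m →
    |yy l a b (n + 2) E| ≤ m →
    |5 * (mR l a b n E ^ 2 - 4 * mP l a b n E * mQ l a b n E) -
      l ^ 2 / 4 * (1 + (yy l a b n E + yy l a b (n + 1) E + yy l a b (n + 2) E) / 3)|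
      ≤ 40 * m ^ 4 + 10 * l ^ 2 * m ^ 2

/-- entry data -/
def ST_D8 : Prop := ∃ l0 : ℝ, 0 < l0 ∧ ∀ (l E : ℝ) (a b : ℤ) (n : ℕ), 0 < |l| → |l| ≤ l0 → b ≠ 0 →
  Real.sqrt (Real.sqrt |l|) ≤ |(b : ℝ)| * gam ^ n →
  |(b : ℝ)| * gam ^ n < phi * Real.sqrt (Real.sqrt |l|) →
  |aa l a b n E| ≤ 3 * (Real.sqrt |l| * Real.sqrt (Real.sqrt |l|)) →
  |mQ l a b n E - Real.pi ^ 2 / 2 * (|(b : ℝ)| * gam ^ n) ^ 2| ≤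
      (|(b : ℝ)| * gam ^ n) ^ 2 * (Real.pi ^ 2 / 2) * (194 / 10) * |l| ∧
  |mR l a b n E| ≤ 30 * |l| ∧ |mP l a b n E| ≤ 20 * |l| * Real.sqrt |l| ∧
  (aa l a b n E = 0 → |mQ l a b n E - Real.pi ^ 2 / 2 * (|(b : ℝ)| * gam ^ n) ^ 2| ≤
      (|(b : ℝ)| * gam ^ n) ^ 2 * (Real.pi ^ 2 / 2) * (181 / 10) * |l| ∧
    |mR l a b n E| ≤ |l| * Real.sqrt |l|) ∧
  (∀ j, n ≤ j → j ≤ n + 2 → |rr l a b j E| < 1)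

/-- from the entry level to the centre -/
def ST_D9 : Prop := ∃ l0 : ℝ, 0 < l0 ∧ ∀ (l E : ℝ) (a b : ℤ) (n c : ℕ), 0 < |l| → |l| ≤ l0 → b ≠ 0 → n ≤ c →
  Real.sqrt (Real.sqrt |l|) ≤ |(b : ℝ)| * gam ^ n →
  |(b : ℝ)| * gam ^ n < phi * Real.sqrt (Real.sqrt |l|) →
  15 / 100 * Real.sqrt |l| ≤ |(b : ℝ)| * gam ^ c → |(b : ℝ)| * gam ^ c < 15 / 100 * phi * Real.sqrt |l| →
  |mQ l a b n E| ≤ 10 * (|(b : ℝ)| * gam ^ n) ^ 2 → |mR l a b n E| ≤ 30 * |l| →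
  |mP l a b n E| ≤ 20 * |l| * Real.sqrt |l| →
  |mQ l a b c E - gam ^ (2 * (c - n)) * mQ l a b n E| ≤ 44 / 1000 * l ^ 2 ∧
  |mR l a b c E| ≤ |mR l a b n E| + |l| * Real.sqrt |l| ∧ |mP l a b c E| ≤ 4000 * |l| ∧
  (∀ j, n ≤ j → j ≤ c + 12 → |yy l a b j E| ≤ Real.sqrt (Real.sqrt |l|) ∧
    |tt l a b j E| ≤ Real.sqrt (Real.sqrt |l|)) ∧
  (∀ k, k ≤ 9 → |mP l a b (c + k) E - phi ^ (2 * k) * mP l a b c E| ≤ |l| * Real.sqrt |l| ∧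
    |mQ l a b (c + k) E - gam ^ (2 * k) * mQ l a b c E| ≤ |l| * Real.sqrt |l| ∧
    |mR l a b (c + k) E - (-1) ^ k * mR l a b c E| ≤ |l| * Real.sqrt |l|)

/-- Lyapunov exponent from level N -/
def ST_D10 : Prop := ∀ l : ℝ, 0 < |l| → |l| ≤ 1 / 100 → ∀ (N : ℕ) (E : ℝ),
  |Ly l E - gam ^ N * (tau l (N + 1) E + gam * tau l N E)| ≤ gam ^ N * (phi * Real.sqrt |l|) ∧
  ((∀ j, N ≤ j → tau l (j + 1) E + tau l j E ≤ tau l (j + 2) E) →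
    gam ^ N * (tau l (N + 1) E + gam * tau l N E) ≤ Ly l E)

/-- exit -/
def ST_D11 : Prop := ∃ l0 : ℝ, 0 < l0 ∧ ∀ (l E : ℝ) (a b : ℤ) (c : ℕ), 0 < |l| → |l| ≤ l0 → 1 ≤ c →
  (∀ j, c ≤ j → j ≤ c + 2 → |rr l a b j E| < 1 / 4) →
  mP l a b c E ≤ -(1 / 1000) * |l| → -(2 / 10) * |l| ≤ mP l a b c E →
  |mR l a b c E| ≤ 3 / 10 * |l| → |mQ l a b c E| ≤ 3 / 10 * |l| →
  |phi ^ (2 * c) * Ly l E ^ 2 + 10 * mP l a b c E| ≤ 1 / 10 * l ^ 2 ∧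
  (∃ n0, ∀ n, n0 ≤ n → Th l n E = Real.pi * (pp a b n : ℝ)) ∧ E ∉ Cs l

/-- upper bound -/
def ST_D12 : Prop := ∃ l0 : ℝ, 0 < l0 ∧ ∀ (l E : ℝ) (a b : ℤ), 0 < |l| → |l| ≤ l0 → b ≠ 0 → E ∉ Cs l →
  (∃ n0, ∀ n, n0 ≤ n → Th l n E = Real.pi * (pp a b n : ℝ)) →
  |(b : ℝ)| * Ly l E ≤ |l| / (2 * Real.pi) * (1 + 12 * |l|)

/-- lower bound -/
def ST_D13 : Prop := ∃ l0 : ℝ, 0 < l0 ∧ ∀ (l : ℝ) (a b : ℤ), 0 < |l| → |l| ≤ l0 → b ≠ 0 →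
  0 < (a : ℝ) + b * gam → (a : ℝ) + b * gam < 1 →
  ∃ E : ℝ, E ∉ Cs l ∧ (∃ n0, ∀ n, n0 ≤ n → Th l n E = Real.pi * (pp a b n : ℝ)) ∧
    |l| / (2 * Real.pi) * (1 - 12 * |l|) ≤ |(b : ℝ)| * Ly l E

end

end Pool.Agent.Helper36.CV
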