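import Pool.Agent.Helper36.CV.StmtsR

set_option autoImplicit false

namespace Pool.Agent.Helper36.CV

open Complex Filter Topology MeasureTheory Set Pointwise

noncomputable section

/-! Block E: left edges of C, dead configurations, generic coupling, assembly. -/

/-- two-sided assumption on the heights -/
def Par2 (ε Hm Hp : ℝ) : Prop := 0 < ε ∧ 4 * Real.sqrt 5 * Hp ≤ ε * (1 + 98 * ε) ∧ ε * (1 + 42 * ε) ≤ 4 * Real.sqrt 5 * Hm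

/-- a left edge: a point of C which is isolated from the left -/
structure Edge {Hm Hp : ℝ} {C : Set ℝ} (cd : CD Hm Hp C) where
  c : ℝ
  δ : ℝ
  n : ℤ
  m : ℤ
  hc : c ∈ C
  hδ : 0 < δ
  flat : ∀ t ∈ Icc (c - δ) c, Nf cd t = Nf cd c
  lab : Nf cd c = n + m * gam
  lt1 : Nf cd c < 1

namespace Edge
variable {Hm Hp : ℝ} {C : Set ℝ} {cd : CD Hm Hp C}
def N (e : Edge cd) : ℝ := Nf cd e.c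
def mu (e : Edge cd) : ℝ := Real.sqrt 5 * e.m
def g (e : Edge cd) (z : ℂ) : ℂ := (cd.f z - e.N) / (z - e.c) ^ (1 / 2 : ℂ)
/-- weight on the line -/
def wt (e : Edge cd) (t : ℝ) : ℝ :=
  if e.c < t then vf cd t / Real.sqrt (t - e.c) else (e.N - Nf cd t) / Real.sqrt (e.c - t)
/-- label window -/
def LW (e : Edge cd) (R : ℝ) : Prop := ∀ t : ℝ, e.c ≤ t → t ≤ e.c + R → (Nf cd t - e.N) * (|e.mu| + 1) ≤ 1 / 1000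
end Edge

/-- E1: left isolated points are edges; small windows exist -/
def ST_E1 : Prop := ∀ (Hm Hp : ℝ) (C : Set ℝ) (cd : CD Hm Hp C), 0 < Hm →
  (∀ c ∈ C, (∃ δ : ℝ, 0 < δ ∧ ∀ y ∈ Ioo (c - δ) c, y ∉ C) → ∃ e : Edge cd, e.c = c) ∧
  (∀ e : Edge cd, ∃ R : ℝ, 0 < R ∧ R ≤ e.δ ∧ e.LW R) ∧
  (∀ e : Edge cd, ∀ t : ℝ, e.c < t → e.N < Nf cd t) ∧
  (∀ e : Edge cd, ∀ t ∈ Ioo (e.c - e.δ) e.c, t ∉ C) ∧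
  {c : ℝ | c ∈ C ∧ ∃ δ : ℝ, 0 < δ ∧ ∀ y ∈ Ioo (c - δ) c, y ∉ C}.Countable

/-- E2: argument and modulus of the amplitude function at an edge -/
def ST_E2 : Prop := ∃ K : ℝ, 1 ≤ K ∧ ∀ (ε Hm Hp : ℝ) (C : Set ℝ) (cd : CD Hm Hp C), 0 < Hm → 0 < ε → ε ≤ 1 / 100 →
  ∀ (e : Edge cd) (R : ℝ), 0 < R → R ≤ e.δ → (∀ t : ℝ, e.c < t → t ≤ e.c + R → vf cd t ≤ 3 * ε * (Nf cd t - e.N)) →
  (∀ z ∈ Uo, ‖z - e.c‖ ≤ R / 4 → |(e.g z).arg| ≤ 3 * ε + 2 * ‖z - e.c‖ / R) ∧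
  (∀ z₁ ∈ Uo, ∀ z₂ ∈ Uo, ‖z₁ - e.c‖ ≤ R / 4 → ‖z₂ - e.c‖ ≤ R / 4 →
    |Real.log ‖e.g z₁‖ - Real.log ‖e.g z₂‖| ≤
      K * (ε * (1 + Real.log (1 + ‖z₁ - z₂‖ / z₁.im) + Real.log (1 + ‖z₁ - z₂‖ / z₂.im)) + ‖z₁ - z₂‖ / R))

/-- E3: labels in the window of an edge, and mass in shells -/
def ST_E3 : Prop := ∃ K ε0 : ℝ, 1 ≤ K ∧ 0 < ε0 ∧ ∀ (ε Hm Hp : ℝ) (C : Set ℝ) (cd : CD Hm Hp C), Par ε Hm Hp → ε ≤ ε0 →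
  ∀ (e : Edge cd) (R : ℝ), 0 < R → R ≤ e.δ → e.LW R →
  (∀ t : ℝ, e.c < t → t ≤ e.c + R → 0 < Nf cd t ∧ Nf cd t < 1 ∧ vf cd t ≤ ε * (Nf cd t - e.N) ∧
    ∀ W : Gap cd, t ∈ Icc W.a W.b → 99 / 100 ≤ |W.mu| * (W.N - e.N)) ∧
  ∀ δ : ℝ, 0 < δ → 200 * δ ≤ R →
  ∫ t in Icc (e.c + δ / 2) (e.c + 3 * δ / 2), vf cd t / Real.sqrt (t - e.c) ≤
    K * ε ^ 2 * δ * ‖e.g ((e.c + δ : ℝ) + (δ : ℂ) * I)‖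

/-- E4: identities at an edge -/
def ST_E4 : Prop := ∀ (Hm Hp : ℝ) (C : Set ℝ) (cd : CD Hm Hp C), 0 < Hm → ∀ (e : Edge cd),
  (∀ z ∈ Uo, Integrable (fun t : ℝ => ((e.wt t : ℝ) : ℂ) / ((t : ℂ) - z)) ∧
    e.g z = (1 / Real.pi : ℝ) * ∫ t : ℝ, ((e.wt t : ℝ) : ℂ) / ((t : ℂ) - z)) ∧
  (∀ W : Gap cd, e.c < W.a →
    Integrable (fun t => e.wt t / W.q t) ∧
    (W.N - e.N) * W.av (fun t => 1 / Real.sqrt (t - e.c)) = (1 / Real.pi) * ∫ t : ℝ, e.wt t / W.q t) ∧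
  (∀ W : Gap cd, e.c < W.a →
    Integrable (fun t => e.wt t / (W.q t * (t - W.c))) ∧
    W.kk = Real.sqrt (W.c - e.c) * ((W.N - e.N) * ((1 / Real.pi) * ∫ t in Iio e.c, 1 / (Real.sqrt (e.c - t) * |W.q t| * |t - W.c|)) +
      (1 / Real.pi) * ∫ t : ℝ, e.wt t / (W.q t * (t - W.c))))

/-- mass near a gap within distance r -/
def n1 {Hm Hp : ℝ} {C : Set ℝ} {cd : CD Hm Hp C} (W : Gap cd) (r : ℝ) : ℝ :=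
  ∫ t in Icc (W.c - r) (W.c + r), vf cd t / |W.q t|
def n2 {Hm Hp : ℝ} {C : Set ℝ} {cd : CD Hm Hp C} (W : Gap cd) (r : ℝ) : ℝ :=
  ∫ t in Icc (W.c - r) (W.c + r), vf cd t / (|W.q t| * |t - W.c|)

/-- the local law at an edge at scale E, amplitude A -/
structure EL {Hm Hp : ℝ} {C : Set ℝ} (cd : CD Hm Hp C) (e : Edge cd) (ε K E A : ℝ) : Prop where
  pE : 0 < E
  pA : 0 < A
  win : e.LW (4 * E)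
  dl : 4 * E ≤ e.δ
  lo : ∀ x r : ℝ, e.c + E / 10 ≤ x → x ≤ e.c + 3 * E → 0 < r → r ≤ E → r * A ≤ 10 * Real.sqrt E * Yf cd x r
  im : ∀ x r : ℝ, e.c + E / 10 ≤ x → x ≤ e.c + 3 * E → ε * E ≤ r → r ≤ E →
    |Yf cd x r - A * Real.sqrt ((Real.sqrt ((x - e.c) ^ 2 + r ^ 2) - (x - e.c)) / 2)| ≤ ε ^ (4 / 5 : ℝ) * A * Real.sqrt E
  cr : ∀ x : ℝ, e.c + E / 10 ≤ x → x ≤ e.c + 3 * E →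
    |Nf cd x - e.N - A * Real.sqrt (x - e.c)| ≤ ε ^ (4 / 5 : ℝ) * A * Real.sqrt E
  law : ∀ W : Gap cd, e.c + E / 5 ≤ W.a → W.b ≤ e.c + 2 * E → W.s ≤ 3 * ε * E →
    |W.N - e.N - A * Real.sqrt (W.c - e.c)| ≤ K * n1 W (E / 10) + ε ^ (19 / 10 : ℝ) * A * Real.sqrt E ∧
    W.kk ≤ (W.N - e.N) / (2 * (W.c - e.c)) + K * n2 W (E / 10) + ε ^ (19 / 10 : ℝ) * A / Real.sqrt E

/-- E5: the local law holds at all small scales -/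
def ST_E5 : Prop := ∃ K ε0 : ℝ, 1 ≤ K ∧ 0 < ε0 ∧ ∀ (ε Hm Hp : ℝ) (C : Set ℝ) (cd : CD Hm Hp C), Par ε Hm Hp → ε ≤ ε0 →
  ∀ e : Edge cd, ∃ E0 : ℝ, 0 < E0 ∧ ∀ E : ℝ, 0 < E → E ≤ E0 → ∃ A : ℝ, EL cd e ε K E A

/-- E6: fine estimates in the own window of a gap -/
def ST_E6 : Prop := ∃ ε0 : ℝ, 0 < ε0 ∧ ∀ (ε Hm Hp : ℝ) (C : Set ℝ) (cd : CD Hm Hp C), Par ε Hm Hp → ε ≤ ε0 →
  ∀ V : Gap cd, 1000 ≤ |V.mu| → n2 V (V.s / (4 * ε)) ≤ ε ^ (19 / 10 : ℝ) * V.kk ∧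
  ∀ t ∈ Icc V.a V.b, vf cd t ≤ (1 + ε ^ (19 / 10 : ℝ)) * vf cd V.c

/-- E7: the gaps V1(n) with label N + gam^n -/
def ST_E7 : Prop := ∀ K : ℝ, 1 ≤ K → ∃ ε0 : ℝ, 0 < ε0 ∧ ∀ (ε Hm Hp : ℝ) (C : Set ℝ) (cd : CD Hm Hp C), Par2 ε Hm Hp → ε ≤ ε0 →
  ∀ e : Edge cd, (∃ E0 : ℝ, 0 < E0 ∧ ∀ E : ℝ, 0 < E → E ≤ E0 → ∃ A : ℝ, EL cd e ε K E A) → ∀ η : ℝ, 0 < η →
  ∃ n0 : ℕ, ∀ n : ℕ, n0 ≤ n → ∃ (V V' : Gap cd) (A : ℝ), V.N = e.N + gam ^ n ∧ V'.N = e.N + gam ^ (n + 1) ∧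
    e.c < V.c ∧ V.c - e.c < η ∧ EL cd e ε K (V.c - e.c) A ∧ gam ^ n * (|e.mu| + 1) ≤ ε ^ 2 ∧
    |gam ^ n - A * Real.sqrt (V.c - e.c)| ≤ ε ^ (37 / 20 : ℝ) * A * Real.sqrt (V.c - e.c) ∧
    ε * (1 + 41 * ε) * (V.c - e.c) ≤ V.s ∧ 3 / 10 * (V.c - e.c) ≤ V'.c - e.c ∧ V'.c - e.c ≤ 9 / 20 * (V.c - e.c)

/-- E8: the gap G with label N + alpha gam^n, alpha near 1/sqrt 2 -/
def ST_E8 : Prop := ∀ K : ℝ, 1 ≤ K → ∃ K' ε0 : ℝ, 1 ≤ K' ∧ 0 < ε0 ∧ ∀ (ε Hm Hp : ℝ) (C : Set ℝ) (cd : CD Hm Hp C), Par2 ε Hm Hp → ε ≤ ε0 →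
  ∀ (e : Edge cd) (n : ℕ) (E A : ℝ), EL cd e ε K E A → gam ^ n * (|e.mu| + 1) ≤ ε ^ 2 →
  |gam ^ n - A * Real.sqrt E| ≤ ε ^ (37 / 20 : ℝ) * A * Real.sqrt E →
  ∀ z : ℤ × ℤ, |zv z - 1 / Real.sqrt 2| ≤ 20 * ε → 5 * ε * |zc z| ≤ 1 →
  ∃ G : Gap cd, G.N = e.N + zv z * gam ^ n ∧ |G.c - e.c - zv z ^ 2 * E| ≤ ε ^ (9 / 5 : ℝ) * E ∧
    ε * zv z * (1 - K' * ε) * E ≤ |zc z| * G.s

/-- E9: box lemma -/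
def ST_E9 : Prop := (∀ a w : ℝ, ∃ x : ℤ × ℤ, a ≤ zv x ∧ zv x < a + phi ^ 2 ∧ w ≤ zc x ∧ zc x < w + 1) ∧
  (∀ a A w B : ℝ, 0 < A → 0 < B → phi ^ 3 ≤ A * B → ∃ x : ℤ × ℤ, a ≤ zv x ∧ zv x ≤ a + A ∧ w ≤ zc x ∧ zc x ≤ w + B)

/-- a family of Cantor sets depending on the coupling -/
structure LF (cK A0 B0 : ℝ) (K : ℝ → Set ℝ) where
  ι : Type
  cnt : Countable ι
  lo : ι → ℝ → ℝ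
  hi : ι → ℝ → ℝ
  t : ι → ℝ
  g : Fin 3 → ι → ι
  pos : 0 < A0
  kd : ∀ l ∈ Ioo A0 B0, IsKD (1 / (2 * l)) cK (K l) (fun j => lo j l) (fun j => hi j l) t g
  cl : ∀ j, ContinuousOn (lo j) (Ioo A0 B0)
  chh : ∀ j, ContinuousOn (hi j) (Ioo A0 B0)
  g1 : ∀ w : ι, ∀ a b : ℝ, A0 < a → a < b → b < B0 → ∀ R : ℝ, ∃ m0 : ℕ, ∀ m, m0 ≤ m →
    R ≤ Real.log (hi ((g 0)^[m] w) a - lo ((g 0)^[m] w) a) - Real.log (hi ((g 0)^[m] w) b - lo ((g 0)^[m] w) b)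
  g2 : ∀ w w' : ι, (∀ l ∈ Ioo A0 B0, lo w l = lo w' l) ∨
    (∀ c0 a b : ℝ, A0 < a → a < b → b < B0 → ∃ l ∈ Ioo a b, lo w l - lo w' l ≠ c0)
  g3 : ∀ l ∈ Ioo A0 B0, ∀ k ∈ K l, (∃ δ : ℝ, 0 < δ ∧ ∀ y ∈ Ioo (k - δ) k, y ∉ K l) → ∃ w : ι, lo w l = k
  cpt : ∀ l ∈ Ioo A0 B0, IsCompact (K l)

/-- E10: dead configurations occur on a dense set of couplings -/
def ST_E10 : Prop := ∀ cK : ℝ, 1 ≤ cK → ∃ ε0 : ℝ, 0 < ε0 ∧ ∀ (Hm Hp : ℝ) (C : Set ℝ) (cd : CD Hm Hp C) (A0 B0 : ℝ) (K : ℝ → Set ℝ),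
  0 < A0 → 1 / (2 * A0) ≤ ε0 → (∀ l ∈ Ioo A0 B0, Par2 (1 / (2 * l)) Hm Hp) → ∀ F : LF cK A0 B0 K,
  ∀ (e : Edge cd) (w : F.ι) (η a b : ℝ), 0 < η → A0 < a → a < b → b < B0 →
  ∃ a' b' : ℝ, a ≤ a' ∧ a' < b' ∧ b' ≤ b ∧ ∀ l ∈ Ioo a' b', ∃ x : ℝ, e.c + F.lo w l < x ∧ x < e.c + F.lo w l + η ∧
    ∀ k ∈ K l, F.lo w l ≤ k → e.c ≤ x - k → x - k ∉ C

/-- E11: generic couplings -/
def ST_E11 : Prop := ∀ cK : ℝ, 1 ≤ cK → ∃ ε0 : ℝ, 0 < ε0 ∧ ∀ (Hm Hp : ℝ) (C : Set ℝ) (cd : CD Hm Hp C) (A0 B0 : ℝ) (K : ℝ → Set ℝ),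
  0 < A0 → A0 < B0 → 1 / (2 * A0) ≤ ε0 → IsCompact C → (∀ l ∈ Ioo A0 B0, Par2 (1 / (2 * l)) Hm Hp) → LF cK A0 B0 K →
  ∃ U : ℕ → Set ℝ, (∀ n, IsOpen (U n) ∧ Ioo A0 B0 ⊆ closure (U n)) ∧
    ∀ l ∈ Ioo A0 B0, (∀ n, l ∈ U n) → LE (C + K l)

/-- E12: the families of large couplings -/
def ST_E12 : Prop := ∃ cK L1 : ℝ, 1 ≤ cK ∧ 1 ≤ L1 ∧ ∀ A0 B0 : ℝ, L1 ≤ A0 → A0 < B0 →
  Nonempty (LF cK A0 B0 (fun l => Cs l)) ∧ Nonempty (LF cK A0 B0 (fun l => -(Cs l)))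

/-- E13: choice of the parameters -/
def ST_E13 : Prop := ∀ L : ℝ, 1 ≤ L → ∃ l1 A0 B0 : ℝ, L ≤ A0 ∧ 0 < A0 ∧ A0 < B0 ∧ 0 < |l1| ∧
  (∀ l ∈ Ioo A0 B0, ArithOK (1 / (2 * l))) ∧ |l1| ≤ 1 / L ∧
  ∀ Hm Hp : ℝ, Hm = |l1| / (2 * Real.pi ^ 2) * (1 - 12 * |l1|) → Hp = |l1| / (2 * Real.pi ^ 2) * (1 + 12 * |l1|) →
    ∀ l ∈ Ioo A0 B0, Par2 (1 / (2 * l)) Hm Hp

/-- E14: final statement -/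
def ST_E14 : Prop := ∃ l1 l2 : ℝ, closure (interior (Cs l1 + Cs l2)) = Cs l1 + Cs l2 ∧ LE (Cs l1 + Cs l2) ∧ RE (Cs l1 + Cs l2)

end

end Pool.Agent.Helper36.CV
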