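import Pool.Agent.Helper36.CV.StmtsK

set_option autoImplicit false

namespace Pool.Agent.Helper36.CV

open Filter Topology Pointwise

noncomputable section

/-! Block G: generic coupling. -/

/-- m-fold child i of w -/
def cr (i : Fin 3) (m : ℕ) (w : Wd) : Wd := (w.1, List.replicate m i ++ w.2)

def len {c L0 : ℝ} (U : KM c L0) (w : Wd) (l : ℝ) : ℝ := (U.hi w l).re - (U.lo w l).re

/-- lengths of deep end pieces depend strongly on the coupling -/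
def ST_G1 : Prop := ∀ c : ℝ, 1 ≤ c → ∃ L1 : ℝ, 1 ≤ L1 ∧ ∀ (L0 : ℝ) (U : KM c L0), ∀ w : Wd, ∀ i : Fin 3, i ≠ 1 →
  ∀ a b : ℝ, L1 < a → 2 * L0 < a → a < b → ∀ R : ℝ, ∃ m0 : ℕ, ∀ m, m0 ≤ m →
    R ≤ Real.log (len U (cr i m w) a) - Real.log (len U (cr i m w) b)

/-- differences of end points are not locally constant -/
def ST_G2 : Prop := ∀ (c L0 : ℝ), 1 ≤ c → 1 ≤ L0 → ∀ (U : KM c L0), ∀ w w' : Wd,
  ((∀ l : ℝ, L0 < l → (U.lo w l).re = (U.lo w' l).re) ∨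
    (∀ c0 a b : ℝ, L0 < a → a < b → ∃ l ∈ Set.Ioo a b, (U.lo w l).re - (U.lo w' l).re ≠ c0)) ∧
  ((∀ l : ℝ, L0 < l → (U.hi w l).re = (U.hi w' l).re) ∨
    (∀ c0 a b : ℝ, L0 < a → a < b → ∃ l ∈ Set.Ioo a b, (U.hi w l).re - (U.hi w' l).re ≠ c0))

/-- left isolated points of the spectrum are the lower ends of small pieces; right isolated ones the upper ends -/
def ST_G3 : Prop := ∀ (c L0 : ℝ), 1 ≤ c → ∃ L1 : ℝ, ∀ (U : KM c L0), ∀ l : ℝ, L0 < l → L1 < l → ∀ k ∈ Cs l,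
  ((∃ δ : ℝ, 0 < δ ∧ ∀ y ∈ Set.Ioo (k - δ) k, y ∉ Cs l) →
    ∃ w : Wd, ∀ m : ℕ, (U.lo (cr 0 m w) l).re = k ∧ len U (cr 0 m w) l ≤ (1 / 2) ^ m) ∧
  ((∃ δ : ℝ, 0 < δ ∧ ∀ y ∈ Set.Ioo k (k + δ), y ∉ Cs l) →
    ∃ w : Wd, ∀ m : ℕ, (U.hi (cr 2 m w) l).re = k ∧ len U (cr 2 m w) l ≤ (1 / 2) ^ m)

end

end Pool.Agent.Helper36.CV
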