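import Pool.Agent.Helper36.CV.StmtsO

set_option autoImplicit false

namespace Pool.Agent.Helper36.CV

open Filter Topology Pointwise

noncomputable section

/-! Block K: structure of the large coupling spectrum, uniformly for complex coupling. -/

/-- trace map with complex coupling -/
def XX (l : ℂ) : ℕ → ℂ → ℂ
  | 0, _ => 1
  | 1, z => z / 2
  | 2, z => (z - l) / 2
  | (n + 3), z => 2 * XX l (n + 2) z * XX l (n + 1) z - XX l n z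

/-- region of complex couplings -/
def Om2 (L0 : ℝ) : Set ℂ := {l | L0 < ‖l‖ ∧ ‖l‖ < 2 * l.re}

/-- domain of the inverse branches: coupling, coordinate -/
def Dom (L0 : ℝ) : Set (ℂ × ℂ) := {p | p.1 ∈ Om2 L0 ∧ ‖p.2‖ < 2}

/-- weak bounds for a band at level k: XX k = u, XX (k+1) large, XX (k+2) = z;
o = orientation (sign of dE/dz), s = sign of XX (k+1) -/
structure Pre (L0 : ℝ) (k : ℕ) (o s : ℝ) (u E : ℂ → ℂ → ℂ) : Prop where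
  oo : o = 1 ∨ o = -1
  ss : s = 1 ∨ s = -1
  an_u : DifferentiableOn ℂ (fun p : ℂ × ℂ => u p.1 p.2) (Dom L0)
  an_E : DifferentiableOn ℂ (fun p : ℂ × ℂ => E p.1 p.2) (Dom L0)
  re_u : ∀ l z : ℝ, ((l : ℂ), (z : ℂ)) ∈ Dom L0 → (u l z).im = 0
  re_E : ∀ l z : ℝ, ((l : ℂ), (z : ℂ)) ∈ Dom L0 → (E l z).im = 0
  t0 : ∀ l z : ℂ, (l, z) ∈ Dom L0 → XX l k (E l z) = u l z
  t1 : ∀ l z : ℂ, (l, z) ∈ Dom L0 → ‖XX l (k + 1) (E l z) - s * l / 2‖ ≤ 3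
  t2 : ∀ l z : ℂ, (l, z) ∈ Dom L0 → XX l (k + 2) (E l z) = z
  ub : ∀ l z : ℂ, (l, z) ∈ Dom L0 → ‖u l z‖ ≤ 11 / 10
  du : ∀ l z : ℂ, (l, z) ∈ Dom L0 → ‖u l z - u l 0‖ ≤ 20 / ‖l‖
  dE0 : ∀ l z : ℂ, (l, z) ∈ Dom L0 → deriv (E l) 0 ≠ 0
  dE : ∀ l z : ℂ, (l, z) ∈ Dom L0 → ‖deriv (E l) z / deriv (E l) 0 - 1‖ ≤ 10 / ‖l‖
  sg : ∀ l : ℝ, (l : ℂ) ∈ Om2 L0 → 0 < o * (deriv (E l) 0).re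

/-- sharp bounds; t is the type: t = -1, 0, 1 -/
structure Sta (c L0 : ℝ) (k : ℕ) (o s t : ℝ) (u E : ℂ → ℂ → ℂ) : Prop extends Pre L0 k o s u E where
  tt : t = 1 ∨ t = 0 ∨ t = -1
  u1 : ∀ l z : ℂ, (l, z) ∈ Dom L0 → ‖u l z - t * s * o / 2‖ ≤ c / ‖l‖
  dist : ∀ l z : ℂ, (l, z) ∈ Dom L0 →
    ‖deriv (E l) z / deriv (E l) 0 - (1 - t * o * z / l)‖ ≤ c / ‖l‖ ^ 2

/-- child near z = r/2 (r = 1 or -1) -/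
structure ChB (c L0 : ℝ) (k : ℕ) (o s r : ℝ) (u E ζ : ℂ → ℂ → ℂ) : Prop where
  sta : Sta c L0 (k + 2) (r * s * o) (r * s) (r * o) ζ (fun l z => E l (ζ l z))
  z1 : ∀ l z : ℂ, (l, z) ∈ Dom L0 → ‖ζ l z - (r / 2 + s * (r * z + u l 0) / (2 * l))‖ ≤ c / ‖l‖ ^ 2
  z2 : ∀ l z : ℂ, (l, z) ∈ Dom L0 → ‖ζ l z - r / 2‖ ≤ 4 / ‖l‖
  d1 : ∀ l : ℂ, l ∈ Om2 L0 → ‖deriv (fun z => E l (ζ l z)) 0 / deriv (E l) 0 -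
      deriv (E l) (r / 2) / deriv (E l) 0 * (r * s / (2 * l)) * (1 - s * r * u l 0 / l)‖ ≤ c / ‖l‖ ^ 3
  un : ∀ l z z' : ℂ, (l, z) ∈ Dom L0 → ‖z' - r / 2‖ ≤ 1 / 4 → XX l (k + 4) (E l z') = z → z' = ζ l z

/-- child near z = 0 -/
structure ChA (c L0 : ℝ) (k : ℕ) (o s : ℝ) (u E υ ζ : ℂ → ℂ → ℂ) : Prop where
  sta : Sta c L0 (k + 3) (-o) (-s) 0 υ (fun l z => E l (ζ l z))
  z1 : ∀ l z : ℂ, (l, z) ∈ Dom L0 → ‖ζ l z - s * u l 0 / l‖ ≤ c / ‖l‖ ^ 2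
  z2 : ∀ l z : ℂ, (l, z) ∈ Dom L0 → ‖ζ l z‖ ≤ 4 / ‖l‖
  d1 : ∀ l : ℂ, l ∈ Om2 L0 → ‖deriv (fun z => E l (ζ l z)) 0 / deriv (E l) 0 + 1 / l ^ 2‖ ≤ c / ‖l‖ ^ 3
  un : ∀ l z z' : ℂ, (l, z) ∈ Dom L0 → ‖z'‖ ≤ 3 / ‖l‖ → XX l (k + 5) (E l z') = z → z' = ζ l z

def ST_K1 : Prop := ∃ c L1 : ℝ, 1 ≤ c ∧ 1 ≤ L1 ∧ ∀ (L0 : ℝ) (k : ℕ) (o s : ℝ) (u E : ℂ → ℂ → ℂ), L1 ≤ L0 →
  Pre L0 k o s u E → ∀ r : ℝ, (r = 1 ∨ r = -1) → ∃ ζ : ℂ → ℂ → ℂ, ChB c L0 k o s r u E ζ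

def ST_K2 : Prop := ∃ c L1 : ℝ, 1 ≤ c ∧ 1 ≤ L1 ∧ ∀ (L0 : ℝ) (k : ℕ) (o s : ℝ) (u E : ℂ → ℂ → ℂ), L1 ≤ L0 →
  Pre L0 k o s u E → ∃ υ ζ : ℂ → ℂ → ℂ, ChA c L0 k o s u E υ ζ

/-- the root bands: the band at level 0 (near l) and the band at level 1 (near 0) -/
def ST_K3 : Prop := ∃ c L1 : ℝ, 1 ≤ c ∧ 1 ≤ L1 ∧ ∀ L0 : ℝ, L1 ≤ L0 →
  Pre L0 0 1 1 (fun _ _ => 1) (fun l z => l + 2 * z) ∧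
  ∃ u E : ℂ → ℂ → ℂ, Sta c L0 1 (-1) (-1) 0 u E ∧
    (∀ l z : ℂ, (l, z) ∈ Dom L0 → E l z * (E l z - l) = 2 * (z + 1) ∧ ‖E l z + 2 * (z + 1) / l‖ ≤ c / ‖l‖ ^ 2)

abbrev Wd : Type := Fin 4 × List (Fin 3)

def rt : Fin 4 → ℝ := ![0, -1, 0, 1]

/-- type of a word: head of the list is the last step -/
def ty (w : Wd) : ℝ := match w.2 with
  | [] => rt w.1
  | i :: _ => ((i : ℕ) : ℝ) - 1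

def ch (i : Fin 3) (w : Wd) : Wd := (w.1, i :: w.2)

/-- the tree of bands. Root 0: band near 0; roots 1, 2, 3: the children (r = -1, middle, r = 1) of the band near l -/
structure Tree (c L0 : ℝ) where
  kk : Wd → ℕ
  oo : Wd → ℝ
  ss : Wd → ℝ
  uu : Wd → ℂ → ℂ → ℂ
  EE : Wd → ℂ → ℂ → ℂ
  zz : Fin 3 → Wd → ℂ → ℂ → ℂ
  sta : ∀ w, Sta c L0 (kk w) (oo w) (ss w) (ty w) (uu w) (EE w)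
  ch0 : ∀ w, ChB c L0 (kk w) (oo w) (ss w) (-oo w) (uu w) (EE w) (zz 0 w)
  ch1 : ∀ w, ChA c L0 (kk w) (oo w) (ss w) (uu w) (EE w) (uu (ch 1 w)) (zz 1 w)
  ch2 : ∀ w, ChB c L0 (kk w) (oo w) (ss w) (oo w) (uu w) (EE w) (zz 2 w)
  E0 : ∀ i w, EE (ch i w) = fun l z => EE w l (zz i w l z)
  u0 : ∀ w, uu (ch 0 w) = zz 0 w
  u2 : ∀ w, uu (ch 2 w) = zz 2 w
  k0 : ∀ i w, kk (ch i w) = kk w + (if i = 1 then 3 else 2)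
  o0 : ∀ i w, oo (ch i w) = if i = 1 then -oo w else (((i : ℕ) : ℝ) - 1) * ss w
  s0 : ∀ i w, ss (ch i w) = if i = 1 then -ss w else (((i : ℕ) : ℝ) - 1) * oo w * ss w
  r0k : kk (0, []) = 1
  r0o : oo (0, []) = -1
  r0s : ss (0, []) = -1
  r0 : ∀ l z : ℂ, (l, z) ∈ Dom L0 → EE (0, []) l z * (EE (0, []) l z - l) = 2 * (z + 1) ∧
    ‖EE (0, []) l z + 2 * (z + 1) / l‖ ≤ c / ‖l‖ ^ 2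
  ζ1 : ℂ → ℂ → ℂ
  ζ2 : ℂ → ℂ → ℂ
  ζ3 : ℂ → ℂ → ℂ
  r1 : ChB c L0 0 1 1 (-1) (fun _ _ => 1) (fun l z => l + 2 * z) ζ1
  r2 : ChA c L0 0 1 1 (fun _ _ => 1) (fun l z => l + 2 * z) (uu (2, [])) ζ2
  r3 : ChB c L0 0 1 1 1 (fun _ _ => 1) (fun l z => l + 2 * z) ζ3
  r1E : EE (1, []) = fun l z => l + 2 * ζ1 l z
  r2E : EE (2, []) = fun l z => l + 2 * ζ2 l z
  r3E : EE (3, []) = fun l z => l + 2 * ζ3 l z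
  r1u : uu (1, []) = ζ1
  r3u : uu (3, []) = ζ3
  r1k : kk (1, []) = 2 ∧ oo (1, []) = -1 ∧ ss (1, []) = -1
  r2k : kk (2, []) = 3 ∧ oo (2, []) = -1 ∧ ss (2, []) = -1
  r3k : kk (3, []) = 2 ∧ oo (3, []) = 1 ∧ ss (3, []) = 1

def ST_K4 : Prop := ∃ c L1 : ℝ, 1 ≤ c ∧ 1 ≤ L1 ∧ ∀ L0 : ℝ, L1 ≤ L0 → Nonempty (Tree c L0)

/-- every real point of the spectrum lies in a root band, and in a child band -/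
def ST_K5 : Prop := ∀ c : ℝ, 1 ≤ c → ∃ L1 : ℝ, 1 ≤ L1 ∧ ∀ (L0 : ℝ), L1 ≤ L0 → ∀ T : Tree c L0,
  ∀ l : ℝ, L0 < l → ∀ x : ℝ, x ∈ Cs l →
  (∃ (r : Fin 4) (z : ℝ), |z| ≤ 1 ∧ (x : ℂ) = T.EE (r, []) l z) ∧
  (∀ (w : Wd) (z : ℝ), |z| ≤ 1 → (x : ℂ) = T.EE w l z →
    ∃ (i : Fin 3) (z' : ℝ), |z'| ≤ 1 ∧ (z : ℂ) = T.zz i w l z')

/-- end points, as analytic functions of the coupling -/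
structure Ends (c c' L0 : ℝ) (T : Tree c L0) where
  zl : Wd → ℂ → ℂ
  zh : Wd → ℂ → ℂ
  an_l : ∀ w, DifferentiableOn ℂ (zl w) (Om2 L0)
  an_h : ∀ w, DifferentiableOn ℂ (zh w) (Om2 L0)
  re_l : ∀ w, ∀ l : ℝ, (l : ℂ) ∈ Om2 L0 → (zl w l).im = 0
  re_h : ∀ w, ∀ l : ℝ, (l : ℂ) ∈ Om2 L0 → (zh w l).im = 0
  nl : ∀ w, ∀ l ∈ Om2 L0, ‖zl w l‖ ≤ 3 / 4
  nh : ∀ w, ∀ l ∈ Om2 L0, ‖zh w l‖ ≤ 3 / 4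
  el : ∀ w, ∀ l ∈ Om2 L0, zl w l = T.zz 0 w l (zl (ch 0 w) l)
  eh : ∀ w, ∀ l ∈ Om2 L0, zh w l = T.zz 2 w l (zh (ch 2 w) l)
  al : ∀ w, ∀ l ∈ Om2 L0, ‖zl w l + T.oo w / 2 * (1 + 1 / (2 * l) - ty w / (2 * l))‖ ≤ c' / ‖l‖ ^ 2
  ah : ∀ w, ∀ l ∈ Om2 L0, ‖zh w l - T.oo w / 2 * (1 + 1 / (2 * l) + ty w / (2 * l))‖ ≤ c' / ‖l‖ ^ 2

def ST_K6 : Prop := ∀ c : ℝ, 1 ≤ c → ∃ c' L1 : ℝ, 1 ≤ c' ∧ 1 ≤ L1 ∧ ∀ (L0 : ℝ), L1 ≤ L0 →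
  ∀ T : Tree c L0, Nonempty (Ends c c' L0 T)

/-- real facts: the end points belong to the spectrum and bound it in the band; nesting -/
def ST_K7 : Prop := ∀ c c' : ℝ, 1 ≤ c → 1 ≤ c' → ∃ L1 : ℝ, 1 ≤ L1 ∧ ∀ (L0 : ℝ), L1 ≤ L0 →
  ∀ (T : Tree c L0) (U : Ends c c' L0 T), ∀ l : ℝ, L0 < l → ∀ w : Wd,
  ∃ a b : ℝ, (a : ℂ) = T.EE w l (U.zl w l) ∧ (b : ℂ) = T.EE w l (U.zh w l) ∧ a < b ∧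
    a ∈ Cs l ∧ b ∈ Cs l ∧
    ∀ (x z : ℝ), x ∈ Cs l → |z| ≤ 1 → (x : ℂ) = T.EE w l z → a ≤ x ∧ x ≤ b

/-- complex length and centre formulas; D = dE/dz at 0 times orientation, e = 1/(2l) -/
def ST_K8 : Prop := ∀ c c' : ℝ, 1 ≤ c → 1 ≤ c' → ∃ c2 L1 : ℝ, 1 ≤ c2 ∧ 1 ≤ L1 ∧ ∀ (L0 : ℝ), L1 ≤ L0 →
  ∀ (T : Tree c L0) (U : Ends c c' L0 T), ∀ l ∈ Om2 L0, ∀ w : Wd,
  ‖(T.EE w l (U.zh w l) - T.EE w l (U.zl w l)) / (T.oo w * deriv (T.EE w l) 0) - (1 + 1 / (2 * l))‖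
      ≤ c2 / ‖l‖ ^ 2 ∧
  ‖((T.EE w l (U.zh w l) + T.EE w l (U.zl w l)) / 2 - T.EE w l 0) / (T.oo w * deriv (T.EE w l) 0)
      - ty w / (8 * l)‖ ≤ c2 / ‖l‖ ^ 2 ∧
  ‖T.oo (ch 0 w) * deriv (T.EE (ch 0 w) l) 0 / (T.oo w * deriv (T.EE w l) 0)
      - 1 / (2 * l) * (1 + ty w / l)‖ ≤ c2 / ‖l‖ ^ 3 ∧
  ‖T.oo (ch 2 w) * deriv (T.EE (ch 2 w) l) 0 / (T.oo w * deriv (T.EE w l) 0)
      - 1 / (2 * l) * (1 - ty w / l)‖ ≤ c2 / ‖l‖ ^ 3 ∧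
  ‖T.oo (ch 1 w) * deriv (T.EE (ch 1 w) l) 0 / (T.oo w * deriv (T.EE w l) 0)
      - 1 / l ^ 2‖ ≤ c2 / ‖l‖ ^ 3 ∧
  ‖(T.EE (ch 1 w) l 0 - T.EE w l 0) / (T.oo w * deriv (T.EE w l) 0) - ty w / (2 * l)‖ ≤ c2 / ‖l‖ ^ 2

/-- the combinatorial structure of a Cantor set K with parameter ε (real) -/
structure IsKD (ε c : ℝ) (K : Set ℝ) {ι : Type} (lo hi t : ι → ℝ) (g : Fin 3 → ι → ι) : Prop where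
  lt : ∀ j, lo j < hi j
  tv : ∀ j, t j = -1 ∨ t j = 0 ∨ t j = 1
  tc : ∀ i j, t (g i j) = ((i : ℕ) : ℝ) - 1
  lm : ∀ j, lo j ∈ K
  hm : ∀ j, hi j ∈ K
  lL : ∀ j, lo (g 0 j) = lo j
  hR : ∀ j, hi (g 2 j) = hi j
  nL : ∀ j, |(hi (g 0 j) - lo (g 0 j)) - ε * (1 + 2 * ε * t j) * (hi j - lo j)| ≤ c * ε ^ 3 * (hi j - lo j)
  nR : ∀ j, |(hi (g 2 j) - lo (g 2 j)) - ε * (1 - 2 * ε * t j) * (hi j - lo j)| ≤ c * ε ^ 3 * (hi j - lo j)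
  nA : ∀ j, |(hi (g 1 j) - lo (g 1 j)) - 4 * ε ^ 2 * (hi j - lo j)| ≤ c * ε ^ 3 * (hi j - lo j)
  cA : ∀ j, |(hi (g 1 j) + lo (g 1 j)) / 2 - (hi j + lo j) / 2 - 3 / 4 * t j * ε * (hi j - lo j)|
    ≤ c * ε ^ 2 * (hi j - lo j)
  cv : ∀ x ∈ K, ∀ j, lo j ≤ x → x ≤ hi j → ∃ i, lo (g i j) ≤ x ∧ x ≤ hi (g i j)
  fn : ∀ x ∈ K, ∀ δ : ℝ, 0 < δ → ∃ j, lo j ≤ x ∧ x ≤ hi j ∧ hi j - lo j < δ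

/-- main theorem of block K -/
structure KM (c L0 : ℝ) where
  lo : Wd → ℂ → ℂ
  hi : Wd → ℂ → ℂ
  an_l : ∀ w, DifferentiableOn ℂ (lo w) (Om2 L0)
  an_h : ∀ w, DifferentiableOn ℂ (hi w) (Om2 L0)
  ne : ∀ w, ∀ l ∈ Om2 L0, hi w l ≠ lo w l
  rL : ∀ w, ∀ l ∈ Om2 L0, ‖(hi (ch 0 w) l - lo (ch 0 w) l) / (hi w l - lo w l) * (2 * l) - 1‖ ≤ c / ‖l‖
  rR : ∀ w, ∀ l ∈ Om2 L0, ‖(hi (ch 2 w) l - lo (ch 2 w) l) / (hi w l - lo w l) * (2 * l) - 1‖ ≤ c / ‖l‖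
  re_l : ∀ w, ∀ l : ℝ, L0 < l → (lo w l).im = 0
  re_h : ∀ w, ∀ l : ℝ, L0 < l → (hi w l).im = 0
  kd : ∀ l : ℝ, L0 < l → IsKD (1 / (2 * l)) c (Cs l) (fun w : Wd => (lo w l).re)
    (fun w : Wd => (hi w l).re) ty ch
  rts : ∀ l : ℝ, L0 < l → ∀ r : Fin 4,
    |(lo (r, []) l).re - (![0, l - 1, l, l + 1] : Fin 4 → ℝ) r| ≤ c / l ∧
    |(hi (r, []) l).re - (![0, l - 1, l, l + 1] : Fin 4 → ℝ) r| ≤ c / l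
  cov : ∀ l : ℝ, L0 < l → ∀ x ∈ Cs l, ∃ r : Fin 4, (lo (r, []) l).re ≤ x ∧ x ≤ (hi (r, []) l).re

def ST_K9 : Prop := ∃ c L0 : ℝ, 1 ≤ c ∧ 1 ≤ L0 ∧ Nonempty (KM c L0)

/-- point lemma: coordinates of a point of the spectrum in the large coupling regime -/
def ST_K0 : Prop := ∃ C L1 : ℝ, 1 ≤ C ∧ 1 ≤ L1 ∧ ∀ l : ℝ, L1 ≤ l → ∀ x ∈ Cs l,
  (|x| ≤ 1 / 4 ∨ ∃ j : Fin 3, |x - (l + ((j : ℕ) : ℝ) - 1)| ≤ 1 / 4) ∧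
  (3 / 4 * l ≤ x → |X l 2 x| ≤ 1 ∧ |X l 1 x - l / 2| ≤ 3) ∧
  ∀ (k : ℕ) (s : ℝ), (s = 1 ∨ s = -1) → |X l k x| ≤ 1 → |X l (k + 1) x - s * l / 2| ≤ 3 → |X l (k + 2) x| ≤ 1 →
    |X l (k + 2) x| ≤ 1 / 2 + C / l ∧
    ((∃ r : ℝ, (r = 1 ∨ r = -1) ∧ |X l (k + 2) x - r / 2| ≤ C / l ∧ |X l (k + 4) x| ≤ 1 ∧
        |X l (k + 3) x - r * s * l / 2| ≤ 3 ∧
        |X l (k + 2) x - r / 2 - (X l (k + 4) x + r * X l k x) / (4 * r * X l (k + 1) x)| ≤ C / l ^ 2) ∨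
     (|X l (k + 2) x - X l k x / (2 * X l (k + 1) x)| ≤ C / l ^ 2 ∧ |X l (k + 3) x| ≤ C / l ∧
        |X l (k + 4) x + s * l / 2| ≤ 3 ∧ |X l (k + 5) x| ≤ 1))

/-- no exact resonances at distance 1 and 2 -/
def ST_K10 : Prop := ∃ L1 : ℝ, 1 ≤ L1 ∧ ∀ l : ℝ, L1 ≤ l → ∀ x ∈ Cs l, ∀ y ∈ Cs l,
  (|x - (l + 1)| ≤ 1 / 4 → |y - l| ≤ 1 / 4 → x - y ≠ 1) ∧
  (|x - l| ≤ 1 / 4 → |y - (l - 1)| ≤ 1 / 4 → x - y ≠ 1)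

def ST_K11 : Prop := ∃ L1 : ℝ, 1 ≤ L1 ∧ ∀ l : ℝ, L1 ≤ l → ∀ x ∈ Cs l, ∀ y ∈ Cs l,
  |x - (l + 1)| ≤ 1 / 4 → |y - (l - 1)| ≤ 1 / 4 → x - y ≠ 2

end

end Pool.Agent.Helper36.CV
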