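import Pool.Agent.Helper36.CV.Defs

set_option autoImplicit false

namespace Pool.Agent.Helper36.CV

open Filter Topology Pointwise

noncomputable section

/-! Block O: spectral theory, and block F: topology of the line. -/

def vv (k : ℤ) : ℝ :=
  (Set.Ico (1 - (Real.sqrt 5 - 1) / 2) 1).indicator (fun _ => (1 : ℝ))
    (Int.fract ((k : ℝ) * ((Real.sqrt 5 - 1) / 2)))

abbrev L2 : Type := lp (fun _ : ℤ => ℂ) 2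

abbrev L22 : Type := lp (fun _ : ℤ × ℤ => ℂ) 2

def hop (l : ℝ) (u : ℤ → ℂ) (k : ℤ) : ℂ := u (k + 1) + u (k - 1) + ((l * vv k : ℝ) : ℂ) * u k

def IsH (l : ℝ) (T : L2 →L[ℂ] L2) : Prop := ∀ (u : L2) (k : ℤ), T u k = hop l (fun j => u j) k

def IsH2 (l1 l2 : ℝ) (T : L22 →L[ℂ] L22) : Prop :=
  ∀ ψ : lp (fun _ : ℤ × ℤ => ℂ) 2, ∀ p : ℤ × ℤ,
        T ψ p = ψ (p.1 + 1, p.2) + ψ (p.1 - 1, p.2) + ψ (p.1, p.2 + 1) + ψ (p.1, p.2 - 1)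
          + ((((Set.Ico (1 - (Real.sqrt 5 - 1) / 2) 1).indicator (fun _ => l1)
                (Int.fract ((p.1 : ℝ) * ((Real.sqrt 5 - 1) / 2)))
              + (Set.Ico (1 - (Real.sqrt 5 - 1) / 2) 1).indicator (fun _ => l2)
                (Int.fract ((p.2 : ℝ) * ((Real.sqrt 5 - 1) / 2)))) : ℝ) : ℂ) * ψ p

def Sp (T : L2 →L[ℂ] L2) : Set ℝ := {x | (x : ℂ) ∈ spectrum ℂ T}

def Sp2 (T : L22 →L[ℂ] L22) : Set ℝ := {x | (x : ℂ) ∈ spectrum ℂ T}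

/-- approximate eigenvalues, with finitely supported test functions -/
def AE (l E : ℝ) : Prop := ∀ δ : ℝ, 0 < δ → ∃ u : ℤ → ℂ, u.support.Finite ∧ u ≠ 0 ∧
  ∑' k, ‖hop l u k - (E : ℂ) * u k‖ ^ 2 ≤ δ * ∑' k, ‖u k‖ ^ 2

/-- one step transfer matrix with potential value w -/
def Tr (E w : ℝ) : Matrix (Fin 2) (Fin 2) ℝ := !![E - w, -1; 1, 0]

/-- transfer matrix over the sites a+1, ..., a+n of a potential -/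
def Pr (w : ℤ → ℝ) (E : ℝ) (a : ℤ) : ℕ → Matrix (Fin 2) (Fin 2) ℝ
  | 0 => 1
  | (n + 1) => Tr E (w (a + n + 1)) * Pr w E a n

def ST_O1 : Prop := ∀ l : ℝ, ∃ T : L2 →L[ℂ] L2, IsSelfAdjoint T ∧ IsH l T

def ST_O2 : Prop := ∀ l1 l2 : ℝ, ∃ T : L22 →L[ℂ] L22, IsSelfAdjoint T ∧ IsH2 l1 l2 T

def ST_O3a : Prop := ∀ (l1 l2 : ℝ) (T : L22 →L[ℂ] L22) (h1 h2 : L2 →L[ℂ] L2),
  IsSelfAdjoint T → IsH2 l1 l2 T → IsSelfAdjoint h1 → IsH l1 h1 → IsSelfAdjoint h2 → IsH l2 h2 →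
  Sp h1 + Sp h2 ⊆ Sp2 T

def ST_O3b : Prop := ∀ (l1 l2 : ℝ) (T : L22 →L[ℂ] L22) (h1 h2 : L2 →L[ℂ] L2),
  IsSelfAdjoint T → IsH2 l1 l2 T → IsSelfAdjoint h1 → IsH l1 h1 → IsSelfAdjoint h2 → IsH l2 h2 →
  Sp2 T ⊆ Sp h1 + Sp h2

/-- the word: M_n is the transfer matrix over the sites 1, ..., fib n -/
def ST_O5 : Prop := ∀ (l E : ℝ) (n : ℕ), 2 ≤ n → M l E n = Pr (fun k => l * vv k) E 0 (Nat.fib n)

def ST_O6 : Prop :=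
  (∀ (n : ℕ) (j : ℤ), 2 ≤ n → 1 ≤ j → j + 2 ≤ Nat.fib (n + 1) → vv (j + Nat.fib n) = vv j) ∧
  (∀ N : ℕ, ∃ j : ℤ, N < j ∧ ∀ k : ℤ, |k| ≤ N → vv (k + j) = vv k)

/-- X is half the trace of M -/
def ST_O4 : Prop := ∀ (l E : ℝ) (n : ℕ), 1 ≤ n → (M l E n).trace = 2 * X l n E

/-- a periodic potential: lower bound outside the bands -/
def ST_O7 : Prop := ∀ (p : ℕ) (w : ℤ → ℝ) (E d : ℝ), 1 ≤ p → 0 < d → (∀ k, w (k + p) = w k) →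
  (∀ E' : ℝ, |E' - E| < d → 2 < |(Pr w E' 0 p).trace|) →
  ∀ u : ℤ → ℂ, u.support.Finite → d ^ 2 * ∑' k, ‖u k‖ ^ 2 ≤
    ∑' k, ‖u (k + 1) + u (k - 1) + ((w k : ℝ) : ℂ) * u k - (E : ℂ) * u k‖ ^ 2

/-- escape -/
def ST_O8 : Prop := ∀ (l E : ℝ), E ∉ Cs l → ∃ d : ℝ, 0 < d ∧ ∃ n0 : ℕ, ∀ n, n0 ≤ n →
  ∀ E' : ℝ, |E' - E| < d → 1 < |X l n E'|

def ST_O9 : Prop := ∀ l E : ℝ, E ∈ Cs l → AE l E

def ST_O9b : Prop := ∀ l E : ℝ, AE l E → E ∈ Cs l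

def ST_O10 : Prop := ∀ (l : ℝ) (T : L2 →L[ℂ] L2), IsSelfAdjoint T → IsH l T → ∀ E : ℝ, E ∈ Sp T ↔ AE l E

def ST_O11 : Prop := ∀ l : ℝ, (Cs l).Nonempty ∧ IsCompact (Cs l)

/-- conclusion of block O -/
def ST_OF : Prop := ∀ l1 l2 : ℝ, ∃ T : L22 →L[ℂ] L22, IsH2 l1 l2 T ∧ Sp2 T = Cs l1 + Cs l2

/-- left ends of components are accumulated by gaps from the right -/
def LE (S : Set ℝ) : Prop := ∀ e ∈ S, (∃ δ : ℝ, 0 < δ ∧ ∀ y ∈ Set.Ioo (e - δ) e, y ∉ S) →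
  ∀ η : ℝ, 0 < η → ∃ y ∈ Set.Ioo e (e + η), y ∉ S

def RE (S : Set ℝ) : Prop := ∀ e ∈ S, (∃ δ : ℝ, 0 < δ ∧ ∀ y ∈ Set.Ioo e (e + δ), y ∉ S) →
  ∀ η : ℝ, 0 < η → ∃ y ∈ Set.Ioo (e - η) e, y ∉ S

def ST_F1 : Prop := ∀ S : Set ℝ, S.Nonempty → IsCompact S → closure (interior S) = S → LE S → RE S →
  ∀ x ∈ S, ¬ (connectedComponentIn S x).Subsingleton →
          ∀ e ∈ ({sInf (connectedComponentIn S x), sSup (connectedComponentIn S x)} : Set ℝ),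
            ∀ ε > 0, ∃ y ∈ S, connectedComponentIn S y = {y} ∧ |y - e| < ε

/-- reflection: RE S is LE of the reflected set -/
def ST_F2 : Prop := (∀ S : Set ℝ, LE (-S) → RE S) ∧ (∀ l : ℝ, -(Cs l) = Cs (-l)) ∧
  (∀ C K : Set ℝ, -(C + K) = (-C) + (-K))

/-- reflection of a comb function -/
def ST_F3 : Prop := ∀ (Hm Hp : ℝ) (C : Set ℝ), Nonempty (CD Hm Hp C) → Nonempty (CD Hm Hp (-C))

end

end Pool.Agent.Helper36.CV
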