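import Pool.Agent.Helper36.CV.Defs

set_option autoImplicit false

namespace Pool.Agent.Helper36.CV

open Complex

/-- T1: invariant, traces, determinants. -/
def ST_T1 : Prop := ∀ (l E : ℝ) (n : ℕ),
  X l (n + 2) E ^ 2 + X l (n + 1) E ^ 2 + X l n E ^ 2
      - 2 * X l (n + 2) E * X l (n + 1) E * X l n E - 1 = l ^ 2 / 4 ∧
  (M l E n).trace = 2 * X l n E ∧ (M l E n).det = 1 ∧
  frick (M l E n) (M l E (n + 1)) = l ^ 2 / 4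

/-- T2: orientation lemma. -/
def ST_T2 : Prop := ∀ A B : Matrix (Fin 2) (Fin 2) ℝ, A.det = 1 → B.det = 1 → |hx A| < 1 → |hx B| < 1 →
  (0 < A 1 0 * B 1 0 ↔ hx (A * B) < hx A * hx B) ∧
  (A 1 0 * B 1 0 < 0 ↔ hx A * hx B < hx (A * B)) 

/-- T3: the phase of a product. -/
def ST_T3 : Prop := ∀ A B : Matrix (Fin 2) (Fin 2) ℝ, A.det = 1 → B.det = 1 →
  0 ≤ frick A B → frick A B < 1 →
  1 - Real.sqrt (frick A B) ≤ (ph (A * B) * (starRingEnd ℂ) (ph A * ph B)).re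

/-- T4: comparison of real parts. -/
def ST_T4 : Prop := ∀ A B : Matrix (Fin 2) (Fin 2) ℝ, A.det = 1 → B.det = 1 →
  0 ≤ frick A B → frick A B < 1 →
  |(ph (A * B)).re - (ph A * ph B).re| ≤ Real.sqrt (frick A B) ∧
  |(ph (A * B)).re - (ph A * ph B).re| * (2 * (|(ph A).im| * |(ph B).im|)) ≤ frick A B

/-- T5: inverses. -/
def ST_T5 : Prop := ∀ A B : Matrix (Fin 2) (Fin 2) ℝ, A.det = 1 → B.det = 1 →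
  ph A⁻¹ = (starRingEnd ℂ) (ph A) ∧ ‖ph A‖ = 1 ∧ frick (A * B) B⁻¹ = frick A B ∧
  frick A⁻¹ (A * B) = frick A B ∧ A⁻¹.det = 1

/-- T6: lifts. -/
def ST_T6 : Prop := ∀ l : ℝ, 0 < |l| → |l| ≤ 1 / 100 → ∀ (n : ℕ),
  Continuous (Th l n) ∧ Continuous (D l n) ∧ ∀ E : ℝ,
  exp ((Th l n E : ℂ) * I) = ph (M l E n) ∧ |D l n E| ≤ 101 / 100 * Real.sqrt |l| ∧
  Real.cos (Th l n E) = clamp (X l n E)

/-- T7: three consecutive traces of modulus at least one. -/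
def ST_T7 : Prop := ∀ l : ℝ, 0 < |l| → |l| ≤ 1 / 100 → ∀ (n : ℕ) (E : ℝ),
  1 ≤ |X l n E| → 1 ≤ |X l (n + 1) E| → 1 ≤ |X l (n + 2) E| → D l n E = 0

/-- T8: escape. -/
def ST_T8 : Prop := ∀ l : ℝ, 0 < |l| → |l| ≤ 1 / 100 → ∀ (n : ℕ) (E : ℝ), 1 ≤ n →
  1 ≤ |X l n E| → 1 ≤ |X l (n + 1) E| → ∀ m, n ≤ m → 1 ≤ |X l m E| ∧ D l m E = 0 ∧
    tau l (m + 1) E + tau l m E ≤ tau l (m + 2) E ∧
    1 + |l| / 2 ≤ |X l (m + 2) E|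

/-- T9: ends. -/
def ST_T9 : Prop := ∀ l : ℝ, 0 < |l| → |l| ≤ 1 / 100 → ∀ (n : ℕ) (E : ℝ),
  (2 + |l| ≤ E → Th l n E = 0) ∧ (E ≤ -(2 + |l|) → Th l n E = Real.pi * (Nat.fib n : ℝ)) ∧
  (2 + |l| ≤ |E| → 1 ≤ |X l n E|)

/-- T10: monotonicity. -/
def ST_T10 : Prop := ∀ l : ℝ, 0 < |l| → |l| ≤ 1 / 100 → ∀ (n : ℕ),
  Antitone (Th l n) ∧ ∀ E : ℝ, 0 ≤ Th l n E ∧ Th l n E ≤ Real.pi * (Nat.fib n : ℝ)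

/-- T11: growth rates. -/
def ST_T11 : Prop := ∀ l : ℝ, 0 < |l| → |l| ≤ 1 / 100 → ∀ (n : ℕ) (E : ℝ),
  |tau l (n + 2) E - tau l (n + 1) E - tau l n E| ≤ Real.sqrt |l| ∧
  (|X l n E| ≤ 1 → |X l (n + 2) E| ≤ 1 → tau l (n + 1) E ≤ Real.sqrt |l|)

/-- T12: the limits. -/
def ST_T12 : Prop := ∀ l : ℝ, 0 < |l| → |l| ≤ 1 / 100 →
  Continuous (Om l) ∧ Continuous (Ly l) ∧ Antitone (Om l) ∧
  (∀ E : ℝ, 0 ≤ Om l E ∧ Om l E ≤ Real.pi ∧ 0 ≤ Ly l E) ∧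
  (∀ E : ℝ, 2 + |l| ≤ E → Om l E = 0) ∧ (∀ E : ℝ, E ≤ -(2 + |l|) → Om l E = Real.pi) ∧
  (∀ (n : ℕ) (E : ℝ), |Th l n E - (Nat.fib n : ℝ) * Om l E| ≤ 3 * Real.sqrt |l| ∧
    |tau l n E - (Nat.fib n : ℝ) * Ly l E| ≤ 3 * Real.sqrt |l|) ∧
  (∀ E : ℝ, Ly l E = 0 ↔ E ∈ Cs l) ∧
  (∀ E : ℝ, E ∉ Cs l → ∃ a b : ℤ, ∃ n0, ∀ n, n0 ≤ n → Th l n E = Real.pi * (pp a b n : ℝ)) ∧
  (∀ (E : ℝ) (a b : ℤ) (n0 : ℕ), (∀ n, n0 ≤ n → Th l n E = Real.pi * (pp a b n : ℝ)) →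
    Om l E = Real.pi * (a + b * gam))

end Pool.Agent.Helper36.CV
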